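import Pool.Agent.U874.And.Sharp

/-! # Anderson model with a flat ground state on the lattice: comparison of the eigenvalues -/

set_option autoImplicit false

open Filter Topology

namespace Pool.Agent.U874.And

/-- the restriction of `-Δ + lam V` to functions on the finite set `Λ` has at least `k` eigenvalues
(with multiplicity) that are at most `t`, in the form of the min-max principle -/
def States {d : ℕ} (lam : ℝ) (V : Z d → ℝ) (Λ : Finset (Z d)) (t : ℝ) (k : ℕ) : Prop :=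
  ∃ W : Submodule ℝ (Z d → ℝ), Module.finrank ℝ W = k ∧ ∀ f ∈ W, (∀ x ∉ Λ, f x = 0) ∧
    ∑ x ∈ Λ, f x * HopZ lam V f x ≤ t * ∑ x ∈ Λ, f x ^ 2

/-- Dirichlet form with the conductances `ψ x ψ (x + e)` -/
noncomputable def DF {d : ℕ} (ψ g : Z d → ℝ) : ℝ :=
  ∑ i : Fin d, ∑' x, ψ x * ψ (x + Pi.single i 1) * (g (x + Pi.single i 1) - g x) ^ 2

lemma summable_fin {d : ℕ} (Λ : Finset (Z d)) (f : Z d → ℝ) (h : ∀ x ∉ Λ, f x = 0) : Summable f :=
  summable_of_hasFiniteSupport (Λ.finite_toSet.subset fun x hx => by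
    by_contra h'
    exact hx (h x h'))

lemma summable_sh {d : ℕ} (Λ : Finset (Z d)) (g : Z d → ℝ) (h : ∀ x ∉ Λ, g x = 0) (e : Z d)
    (F : Z d → ℝ) (hF : ∀ x, g (x + e) = 0 → F x = 0) : Summable F := by
  refine summable_of_hasFiniteSupport ((Λ.finite_toSet.preimage
    ((add_left_injective e).injOn) : ((fun x : Z d => x + e) ⁻¹' (Λ : Set (Z d))).Finite).subset
      fun x hx => ?_)
  by_contra h'
  exact hx (hF x (h _ h'))

lemma form_summable {d : ℕ} (ψ g : Z d → ℝ) (Λ : Finset (Z d)) (hg : ∀ x ∉ Λ, g x = 0)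
    (e : Z d) : Summable fun x => ψ x * ψ (x + e) * (g (x + e) - g x) ^ 2 := by
  have h1 : Summable fun x => ψ x * ψ (x + e) * g (x + e) ^ 2 :=
    summable_sh Λ g hg e _ fun x hx => by rw [hx]; ring
  have h2 : Summable fun x => ψ x * ψ (x + e) * (g (x + e) * g x) :=
    summable_sh Λ g hg e _ fun x hx => by rw [hx]; ring
  have h3 : Summable fun x => ψ x * ψ (x + e) * g x ^ 2 :=
    summable_fin Λ _ fun x hx => by rw [hg x hx]; ring
  refine ((h1.sub (h2.mul_left 2)).add h3).congr fun x => ?_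
  ring

/-- ground state transform of the quadratic form -/
lemma form_eq {d : ℕ} (lam E : ℝ) (V ψ g : Z d → ℝ) (h : ∀ x, HopZ lam V ψ x = E * ψ x)
    (Λ : Finset (Z d)) (hg : ∀ x ∉ Λ, g x = 0) :
    ∑ x ∈ Λ, (ψ x * g x) * (HopZ lam V (fun y => ψ y * g y) x) -
      E * ∑ x ∈ Λ, (ψ x * g x) ^ 2 = DF ψ g := by
  have e0 : ∀ x, (ψ x * g x) * (HopZ lam V (fun y => ψ y * g y) x) - E * (ψ x * g x) ^ 2 =
      ∑ i : Fin d, (ψ x * ψ (x + Pi.single i 1) * (g x - g (x + Pi.single i 1)) * g x +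
        ψ x * ψ (x - Pi.single i 1) * (g x - g (x - Pi.single i 1)) * g x) := by
    intro x
    have h1 := h x
    unfold HopZ at h1 ⊢
    have h2 : E * (ψ x * g x) ^ 2 = (∑ i : Fin d, (2 * ψ x - ψ (x + Pi.single i 1) -
        ψ (x - Pi.single i 1))) * (ψ x * g x ^ 2) + lam * V x * ψ x * (ψ x * g x ^ 2) := by
      calc E * (ψ x * g x) ^ 2 = E * ψ x * (ψ x * g x ^ 2) := by ring
        _ = _ := by rw [← h1]; ring
    rw [h2, mul_add, Finset.mul_sum, Finset.sum_mul]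
    have h3 : ∑ i : Fin d, (ψ x * g x * (2 * (ψ x * g x) - ψ (x + Pi.single i 1) *
        g (x + Pi.single i 1) - ψ (x - Pi.single i 1) * g (x - Pi.single i 1))) +
        ψ x * g x * (lam * V x * (ψ x * g x)) - (∑ i : Fin d, (2 * ψ x - ψ (x + Pi.single i 1) -
        ψ (x - Pi.single i 1)) * (ψ x * g x ^ 2) + lam * V x * ψ x * (ψ x * g x ^ 2)) =
        ∑ i : Fin d, (ψ x * g x * (2 * (ψ x * g x) - ψ (x + Pi.single i 1) *
        g (x + Pi.single i 1) - ψ (x - Pi.single i 1) * g (x - Pi.single i 1))) -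
        ∑ i : Fin d, (2 * ψ x - ψ (x + Pi.single i 1) -
        ψ (x - Pi.single i 1)) * (ψ x * g x ^ 2) := by ring
    rw [h3, ← Finset.sum_sub_distrib]
    exact Finset.sum_congr rfl fun i _ => by ring
  rw [Finset.mul_sum, ← Finset.sum_sub_distrib, Finset.sum_congr rfl fun x _ => e0 x,
    Finset.sum_comm]
  unfold DF
  refine Finset.sum_congr rfl fun i _ => ?_
  set e : Z d := Pi.single i 1 with he
  have s1 : Summable fun x => ψ x * ψ (x + e) * (g x - g (x + e)) * g x :=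
    summable_fin Λ _ fun x hx => by rw [hg x hx]; ring
  have s2 : Summable fun x => ψ x * ψ (x - e) * (g x - g (x - e)) * g x :=
    summable_fin Λ _ fun x hx => by rw [hg x hx]; ring
  have s3 : Summable fun x => ψ (x + e) * ψ x * (g (x + e) - g x) * g (x + e) :=
    summable_sh Λ g hg e _ fun x hx => by rw [hx]; ring
  have h4 : ∑ x ∈ Λ, (ψ x * ψ (x + e) * (g x - g (x + e)) * g x +
        ψ x * ψ (x - e) * (g x - g (x - e)) * g x) =
      ∑' x, (ψ x * ψ (x + e) * (g x - g (x + e)) * g x +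
        ψ x * ψ (x - e) * (g x - g (x - e)) * g x) := by
    symm
    exact tsum_eq_sum fun x hx => by rw [hg x hx]; ring
  have h5 : ∑' x, ψ x * ψ (x - e) * (g x - g (x - e)) * g x =
      ∑' x, ψ (x + e) * ψ x * (g (x + e) - g x) * g (x + e) := by
    rw [← (Equiv.addRight e).tsum_eq (fun x => ψ x * ψ (x - e) * (g x - g (x - e)) * g x)]
    simp
  rw [h4, Summable.tsum_add s1 s2, h5, ← Summable.tsum_add s1 s3]
  exact tsum_congr fun x => by ring

lemma DF_mono {d : ℕ} (ψ χ g : Z d → ℝ) (Λ : Finset (Z d)) (hg : ∀ x ∉ Λ, g x = 0) (c : ℝ)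
    (h : ∀ x y, ψ x * ψ y ≤ c * (χ x * χ y)) : DF ψ g ≤ c * DF χ g := by
  unfold DF
  rw [Finset.mul_sum]
  refine Finset.sum_le_sum fun i _ => ?_
  rw [← tsum_mul_left]
  refine Summable.tsum_le_tsum (fun x => ?_) (form_summable ψ g Λ hg _)
    ((form_summable χ g Λ hg _).mul_left c)
  have := mul_le_mul_of_nonneg_right (h x (x + Pi.single i 1))
    (sq_nonneg (g (x + Pi.single i 1) - g x))
  linarith

/-- the Laplace operator has the ground state 1 -/
lemma hop_one {d : ℕ} (x : Z d) : HopZ 0 (0 : Z d → ℝ) (fun _ => 1) x = 0 * 1 := by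
  unfold HopZ
  simp only [Pi.zero_apply, mul_zero, zero_mul, add_zero]
  exact Finset.sum_eq_zero fun i _ => by norm_num

lemma form_free {d : ℕ} (g : Z d → ℝ) (Λ : Finset (Z d)) (hg : ∀ x ∉ Λ, g x = 0) :
    ∑ x ∈ Λ, g x * HopZ 0 (0 : Z d → ℝ) g x = DF (fun _ => 1) g := by
  have := form_eq 0 0 (0 : Z d → ℝ) (fun _ => 1) g hop_one Λ hg
  simpa using this

/-- multiplication by a positive function -/
noncomputable def mulEq {d : ℕ} (ψ : Z d → ℝ) (hψ : ∀ x, ψ x ≠ 0) : (Z d → ℝ) ≃ₗ[ℝ] (Z d → ℝ) where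
  toFun g := fun x => ψ x * g x
  invFun f := fun x => (ψ x)⁻¹ * f x
  map_add' f g := by funext x; simp [mul_add]
  map_smul' c f := by funext x; simp only [Pi.smul_apply, smul_eq_mul, RingHom.id_apply]; ring
  left_inv f := by funext x; simp only; rw [← mul_assoc, inv_mul_cancel₀ (hψ x), one_mul]
  right_inv f := by funext x; simp only; rw [← mul_assoc, mul_inv_cancel₀ (hψ x), one_mul]

theorem compare {d : ℕ} (lam η E : ℝ) (V ψ : Z d → ℝ)
    (hψ : ∀ x, 1 ≤ ψ x ∧ ψ x ≤ 1 + η) (h : ∀ x, HopZ lam V ψ x = E * ψ x) (Λ : Finset (Z d))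
    (s : ℝ) (hs : 0 ≤ s) (k : ℕ) :
    (States 0 (0 : Z d → ℝ) Λ s k → States lam V Λ (E + (1 + η) ^ 2 * s) k) ∧
    (States lam V Λ (E + s) k → States 0 (0 : Z d → ℝ) Λ ((1 + η) ^ 2 * s) k) := by
  have hψ0 : ∀ x, ψ x ≠ 0 := fun x => by have := (hψ x).1; positivity
  have hup : ∀ x y, ψ x * ψ y ≤ (1 + η) ^ 2 * (1 * 1) := by
    intro x y
    have h1 := hψ x
    have h2 := hψ y
    nlinarith
  have hlow : ∀ x y : Z d, (1 : ℝ) * 1 ≤ 1 * (ψ x * ψ y) := by
    intro x y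
    have h1 := hψ x
    have h2 := hψ y
    nlinarith
  have hn1 : ∀ g : Z d → ℝ, ∑ x ∈ Λ, g x ^ 2 ≤ ∑ x ∈ Λ, (ψ x * g x) ^ 2 := by
    intro g
    refine Finset.sum_le_sum fun x _ => ?_
    have h1 := (hψ x).1
    have : 1 ≤ ψ x ^ 2 := by nlinarith
    rw [mul_pow]
    nlinarith [sq_nonneg (g x)]
  have hn2 : ∀ g : Z d → ℝ, ∑ x ∈ Λ, (ψ x * g x) ^ 2 ≤ (1 + η) ^ 2 * ∑ x ∈ Λ, g x ^ 2 := by
    intro g
    rw [Finset.mul_sum]
    refine Finset.sum_le_sum fun x _ => ?_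
    have h1 := hψ x
    have : ψ x ^ 2 ≤ (1 + η) ^ 2 := by nlinarith
    rw [mul_pow]
    nlinarith [sq_nonneg (g x)]
  constructor
  · rintro ⟨W, hk, hW⟩
    refine ⟨W.map (mulEq ψ hψ0 : (Z d → ℝ) →ₗ[ℝ] (Z d → ℝ)), ?_, ?_⟩
    · rw [LinearEquiv.finrank_map_eq]; exact hk
    · rintro f ⟨g, hg, rfl⟩
      obtain ⟨hg0, hgs⟩ := hW g hg
      refine ⟨fun x hx => ?_, ?_⟩
      · change ψ x * g x = 0
        rw [hg0 x hx, mul_zero]
      · change ∑ x ∈ Λ, (ψ x * g x) * HopZ lam V (fun y => ψ y * g y) x ≤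
          _ * ∑ x ∈ Λ, (ψ x * g x) ^ 2
        have e1 := form_eq lam E V ψ g h Λ hg0
        rw [form_free g Λ hg0] at hgs
        have e2 := DF_mono ψ (fun _ => 1) g Λ hg0 ((1 + η) ^ 2) hup
        have e3 := hn1 g
        have e4 : (1 + η) ^ 2 * DF (fun _ => 1) g ≤ (1 + η) ^ 2 * (s * ∑ x ∈ Λ, g x ^ 2) :=
          mul_le_mul_of_nonneg_left hgs (by positivity)
        have e5 : (1 + η) ^ 2 * (s * ∑ x ∈ Λ, g x ^ 2) ≤
            (1 + η) ^ 2 * (s * ∑ x ∈ Λ, (ψ x * g x) ^ 2) :=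
          mul_le_mul_of_nonneg_left (mul_le_mul_of_nonneg_left e3 hs) (by positivity)
        linarith
  · rintro ⟨W, hk, hW⟩
    refine ⟨W.map ((mulEq ψ hψ0).symm : (Z d → ℝ) →ₗ[ℝ] (Z d → ℝ)), ?_, ?_⟩
    · rw [LinearEquiv.finrank_map_eq]; exact hk
    · rintro g' ⟨f, hf, rfl⟩
      obtain ⟨hf0, hfs⟩ := hW f hf
      set g : Z d → ℝ := fun x => (ψ x)⁻¹ * f x with hgdef
      have hfg : f = fun x => ψ x * g x := by
        funext x
        simp only [hgdef]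
        rw [← mul_assoc, mul_inv_cancel₀ (hψ0 x), one_mul]
      have hg0 : ∀ x ∉ Λ, g x = 0 := fun x hx => by simp only [hgdef]; rw [hf0 x hx, mul_zero]
      refine ⟨fun x hx => hg0 x hx, ?_⟩
      change ∑ x ∈ Λ, g x * HopZ 0 (0 : Z d → ℝ) g x ≤ _ * ∑ x ∈ Λ, g x ^ 2
      rw [form_free g Λ hg0]
      rw [hfg] at hfs
      have e1 := form_eq lam E V ψ g h Λ hg0
      have e2 := DF_mono (fun _ => 1) ψ g Λ hg0 1 hlow
      have e3 := hn2 g
      have e4 := mul_le_mul_of_nonneg_left e3 hs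
      linarith

end Pool.Agent.U874.And
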