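import Pool.Agent.U874.And.Loc2
import Pool.Agent.U874.And.Det

/-! # Anderson model with a flat ground state on the lattice: the bottom of the spectrum -/

set_option autoImplicit false

open Filter Topology
open scoped InnerProductSpace ENNReal

namespace Pool.Agent.U874.And

open Pool.Agent.H4R2.AE

variable {d : ℕ} {lam : ℝ} {V : Z d → ℝ} {H : L2 d →L[ℂ] L2 d}

lemma DF_nonneg (ψ g : Z d → ℝ) (h1 : ∀ x, 1 ≤ ψ x) : 0 ≤ DF ψ g := by
  refine Finset.sum_nonneg fun i _ => tsum_nonneg fun x => ?_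
  have := h1 x
  have := h1 (x + Pi.single i 1)
  positivity

/-- the quadratic form on functions of finite support -/
lemma form_fin (hH : IsAnderson lam V H) (f : L2 d) (Λ : Finset (Z d)) (hf : ∀ x ∉ Λ, f x = 0) :
    (⟪f, H f⟫_ℂ).re = ∑ x ∈ Λ, (f x).re * HopZ lam V (fun y => (f y).re) x +
      ∑ x ∈ Λ, (f x).im * HopZ lam V (fun y => (f y).im) x := by
  have h1 : ⟪f, H f⟫_ℂ = ∑ x ∈ Λ, (starRingEnd ℂ) (f x) * (H f) x := by
    rw [lp.inner_eq_tsum, tsum_eq_sum (s := Λ)]
    · refine Finset.sum_congr rfl fun x _ => ?_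
      simp [mul_comm]
    · intro x hx
      rw [hf x hx]; simp
  have h2 : ∀ x, (H f) x = ((HopZ lam V (fun y => (f y).re) x : ℝ) : ℂ) +
      ((HopZ lam V (fun y => (f y).im) x : ℝ) : ℂ) * Complex.I := by
    intro x
    rw [hH]
    unfold HopZ
    push_cast
    have e : ∀ y, f y = ((f y).re : ℂ) + ((f y).im : ℂ) * Complex.I := fun y =>
      (Complex.re_add_im (f y)).symm
    rw [add_mul, Finset.sum_mul]
    have e2 : ∑ i : Fin d, (2 * f x - f (x + Pi.single i 1) - f (x - Pi.single i 1)) =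
        ∑ i : Fin d, (2 * ((f x).re : ℂ) - ((f (x + Pi.single i 1)).re : ℂ) -
          ((f (x - Pi.single i 1)).re : ℂ)) +
        ∑ i : Fin d, (2 * ((f x).im : ℂ) - ((f (x + Pi.single i 1)).im : ℂ) -
          ((f (x - Pi.single i 1)).im : ℂ)) * Complex.I := by
      rw [← Finset.sum_add_distrib]
      refine Finset.sum_congr rfl fun i _ => ?_
      conv_lhs => rw [e x, e (x + Pi.single i 1), e (x - Pi.single i 1)]
      ring
    rw [e2]
    conv_lhs => rw [e x]
    simp only [Complex.add_re, Complex.ofReal_re, Complex.re_ofReal_mul, Complex.I_re, mul_zero,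
      add_zero, Complex.add_im, Complex.ofReal_im, Complex.im_ofReal_mul, Complex.I_im, mul_one,
      zero_add]
    ring
  rw [h1, Complex.re_sum, ← Finset.sum_add_distrib]
  refine Finset.sum_congr rfl fun x _ => ?_
  rw [h2 x]
  simp [Complex.mul_re]

lemma norm_fin (f : L2 d) (Λ : Finset (Z d)) (hf : ∀ x ∉ Λ, f x = 0) :
    ‖f‖ ^ 2 = ∑ x ∈ Λ, (f x).re ^ 2 + ∑ x ∈ Λ, (f x).im ^ 2 := by
  rw [norm_sq_tsum, tsum_eq_sum (s := Λ), ← Finset.sum_add_distrib]
  · refine Finset.sum_congr rfl fun x _ => ?_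
    rw [← Complex.normSq_eq_norm_sq, Complex.normSq_apply]; ring
  · intro x hx
    rw [hf x hx]; simp

lemma form_low_fin (E : ℝ) (ψ : Z d → ℝ) (h1 : ∀ x, 1 ≤ ψ x)
    (h : ∀ x, HopZ lam V ψ x = E * ψ x) (f : Z d → ℝ) (Λ : Finset (Z d))
    (hf : ∀ x ∉ Λ, f x = 0) : E * ∑ x ∈ Λ, f x ^ 2 ≤ ∑ x ∈ Λ, f x * HopZ lam V f x := by
  have hψ0 : ∀ x, ψ x ≠ 0 := fun x => by have := h1 x; positivity
  have e : f = fun x => ψ x * ((ψ x)⁻¹ * f x) := by
    funext x; rw [← mul_assoc, mul_inv_cancel₀ (hψ0 x), one_mul]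
  have h2 := form_eq lam E V ψ (fun x => (ψ x)⁻¹ * f x) h Λ (fun x hx => by rw [hf x hx, mul_zero])
  have h3 := DF_nonneg ψ (fun x => (ψ x)⁻¹ * f x) h1
  beta_reduce at h2
  rw [← e] at h2
  have e' : ∀ x, ψ x * ((ψ x)⁻¹ * f x) = f x := fun x => (congrFun e x).symm
  simp only [e'] at h2
  linarith

/-- `H ≥ E` -/
theorem form_low (hH : IsAnderson lam V H) (E : ℝ) (ψ : Z d → ℝ) (h1 : ∀ x, 1 ≤ ψ x)
    (h : ∀ x, HopZ lam V ψ x = E * ψ x) (f : L2 d) : E * ‖f‖ ^ 2 ≤ (⟪f, H f⟫_ℂ).re := by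
  have hcl : IsClosed {f : L2 d | E * ‖f‖ ^ 2 ≤ (⟪f, H f⟫_ℂ).re} := by
    refine isClosed_le (by fun_prop) ?_
    exact Complex.continuous_re.comp (continuous_id.inner H.continuous)
  have hs := lp.hasSum_single (p := 2) (by norm_num) f
  refine hcl.mem_of_tendsto hs (Filter.Eventually.of_forall fun Λ => ?_)
  set g : L2 d := ∑ x ∈ Λ, lp.single 2 x (f x) with hg
  have hg0 : ∀ x ∉ Λ, g x = 0 := by
    intro x hx
    rw [hg]
    rw [lp.coeFn_sum, Finset.sum_apply]
    refine Finset.sum_eq_zero fun y hy => ?_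
    rw [lp.single_apply, Pi.single_eq_of_ne]
    rintro rfl
    exact hx hy
  change E * ‖g‖ ^ 2 ≤ (⟪g, H g⟫_ℂ).re
  rw [form_fin hH g Λ hg0, norm_fin g Λ hg0]
  have e1 := form_low_fin E ψ h1 h (fun x => (g x).re) Λ (fun x hx => by rw [hg0 x hx]; rfl)
  have e2 := form_low_fin E ψ h1 h (fun x => (g x).im) Λ (fun x hx => by rw [hg0 x hx]; rfl)
  linarith

/-- the number of boundary points of a box, weighted -/
lemma box_face (R : ℕ) (i : Fin d) (k0 : ℤ) (hk : k0 ∈ II R) :
    (2 * (R : ℝ) + 1) * ∑ x ∈ box R (0 : Z d), (if x i = k0 then (1 : ℝ) else 0) =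
      (2 * (R : ℝ) + 1) ^ d := by
  have h1 := sum_box R (0 : Z d) (fun j k => if j = i then (if k = k0 then (1 : ℝ) else 0) else 1)
  have h2 : ∀ x : Z d, ∏ j, (if j = i then (if x j - (0 : Z d) j = k0 then (1 : ℝ) else 0) else 1) =
      if x i = k0 then (1 : ℝ) else 0 := by
    intro x
    rw [Finset.prod_ite_eq' Finset.univ i fun j => if x j - (0 : Z d) j = k0 then (1 : ℝ) else 0,
      if_pos (Finset.mem_univ i)]
    simp
  simp only [h2] at h1
  rw [h1, ← Finset.mul_prod_erase _ _ (Finset.mem_univ i)]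
  simp only [if_true]
  rw [Finset.sum_ite_eq' (II R) k0 fun _ => (1 : ℝ), if_pos hk, one_mul]
  have h3 : ∏ j ∈ Finset.univ.erase i, ∑ k ∈ II R, (if j = i then (if k = k0 then (1 : ℝ) else 0)
      else 1) = ∏ _j ∈ Finset.univ.erase i, (2 * (R : ℝ) + 1) := by
    refine Finset.prod_congr rfl fun j hj => ?_
    simp only [if_neg (Finset.ne_of_mem_erase hj)]
    rw [Finset.sum_const, II, Int.card_Icc, nsmul_eq_mul, mul_one]
    have : ((R : ℤ) + 1 - -(R : ℤ)).toNat = 2 * R + 1 := by omega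
    rw [this]; push_cast; ring
  rw [h3, Finset.mul_prod_erase Finset.univ (fun _ => 2 * (R : ℝ) + 1) (Finset.mem_univ i)]
  simp

/-- Dirichlet form of the indicator function of a box -/
lemma DF_box (R : ℕ) : (2 * (R : ℝ) + 1) *
    DF (fun _ => 1) (fun x : Z d => if x ∈ box R (0 : Z d) then (1 : ℝ) else 0) ≤
      2 * d * (2 * (R : ℝ) + 1) ^ d := by
  unfold DF
  rw [Finset.mul_sum]
  have h : ∀ i : Fin d, (2 * (R : ℝ) + 1) * ∑' x : Z d, (1 : ℝ) * 1 *
      ((if x + Pi.single i 1 ∈ box R (0 : Z d) then (1 : ℝ) else 0) -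
        (if x ∈ box R (0 : Z d) then (1 : ℝ) else 0)) ^ 2 ≤ 2 * (2 * (R : ℝ) + 1) ^ d := by
    intro i
    set e : Z d := Pi.single i 1 with he
    set χ : Z d → ℝ := fun x => if x ∈ box R (0 : Z d) then (1 : ℝ) else 0 with hχ
    have hpt : ∀ x : Z d, (1 : ℝ) * 1 * (χ (x + e) - χ x) ^ 2 ≤
        χ x * (if x i = (R : ℤ) then (1 : ℝ) else 0) +
        χ (x + e) * (if (x + e) i = -(R : ℤ) then (1 : ℝ) else 0) := by
      intro x
      simp only [hχ]
      have hxe : ∀ j, j ≠ i → (x + e) j = x j := fun j hj => by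
        rw [Pi.add_apply, he, Pi.single_eq_of_ne hj, add_zero]
      have hxi : (x + e) i = x i + 1 := by rw [Pi.add_apply, he, Pi.single_eq_same]
      by_cases h1 : x ∈ box R (0 : Z d) <;> by_cases h2 : x + e ∈ box R (0 : Z d)
      · rw [if_pos h1, if_pos h2]
        split_ifs <;> norm_num
      · rw [if_pos h1, if_neg h2]
        have h3 : x i = (R : ℤ) := by
          rw [mem_box] at h1
          rw [mem_box] at h2
          push Not at h2
          obtain ⟨j, hj⟩ := h2
          have h4 := h1 j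
          have h5 := h1 i
          by_cases hji : j = i
          · subst hji
            rw [hxi] at hj
            simp only [Pi.zero_apply, sub_zero] at hj h4
            have := abs_cases (x j + 1)
            have := abs_cases (x j)
            omega
          · rw [hxe j hji] at hj
            exact absurd h4 (not_le.2 hj)
        rw [if_pos h3]; split_ifs <;> norm_num
      · rw [if_neg h1, if_pos h2]
        have h3 : (x + e) i = -(R : ℤ) := by
          rw [mem_box] at h2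
          rw [mem_box] at h1
          push Not at h1
          obtain ⟨j, hj⟩ := h1
          have h4 := h2 j
          by_cases hji : j = i
          · subst hji
            rw [hxi] at h4 ⊢
            simp only [Pi.zero_apply, sub_zero] at hj h4
            have := abs_cases (x j + 1)
            have := abs_cases (x j)
            omega
          · rw [hxe j hji] at h4
            exact absurd h4 (not_le.2 hj)
        rw [if_pos h3]; split_ifs <;> norm_num
      · rw [if_neg h1, if_neg h2]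
        norm_num
    have hχ0 : ∀ x ∉ box R (0 : Z d), χ x = 0 := fun x hx => by simp only [hχ]; rw [if_neg hx]
    have s1 : Summable fun x => χ x * (if x i = (R : ℤ) then (1 : ℝ) else 0) :=
      summable_fin (box R 0) _ fun x hx => by rw [hχ0 x hx]; ring
    have s2 : Summable fun x => χ (x + e) * (if (x + e) i = -(R : ℤ) then (1 : ℝ) else 0) :=
      summable_sh (box R 0) χ hχ0 e _ fun x hx => by rw [hx]; ring
    have s0 := form_summable (fun _ : Z d => (1 : ℝ)) χ (box R 0) hχ0 e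
    have t0 : ∑' x : Z d, (1 : ℝ) * 1 * (χ (x + e) - χ x) ^ 2 ≤
        ∑' x, χ x * (if x i = (R : ℤ) then (1 : ℝ) else 0) +
        ∑' x, χ (x + e) * (if (x + e) i = -(R : ℤ) then (1 : ℝ) else 0) := by
      rw [← Summable.tsum_add s1 s2]
      exact Summable.tsum_le_tsum hpt s0 (s1.add s2)
    have t2 : ∑' x, χ (x + e) * (if (x + e) i = -(R : ℤ) then (1 : ℝ) else 0) =
        ∑' x, χ x * (if x i = -(R : ℤ) then (1 : ℝ) else 0) :=
      (Equiv.addRight e).tsum_eq (fun x => χ x * (if x i = -(R : ℤ) then (1 : ℝ) else 0))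
    have t3 : ∀ k0 : ℤ, ∑' x, χ x * (if x i = k0 then (1 : ℝ) else 0) =
        ∑ x ∈ box R (0 : Z d), (if x i = k0 then (1 : ℝ) else 0) := by
      intro k0
      rw [tsum_eq_sum (s := box R (0 : Z d)) fun x hx => by rw [hχ0 x hx]; ring]
      refine Finset.sum_congr rfl fun x hx => ?_
      simp only [hχ]
      rw [if_pos hx, one_mul]
    rw [t2, t3, t3] at t0
    have f1 := box_face R i (R : ℤ) (by unfold II; rw [Finset.mem_Icc]; omega)
    have f2 := box_face R i (-(R : ℤ)) (by unfold II; rw [Finset.mem_Icc]; omega)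
    have hR0 : (0 : ℝ) ≤ 2 * (R : ℝ) + 1 := by positivity
    calc (2 * (R : ℝ) + 1) * ∑' x : Z d, (1 : ℝ) * 1 * (χ (x + e) - χ x) ^ 2 ≤
          (2 * (R : ℝ) + 1) * (∑ x ∈ box R (0 : Z d), (if x i = (R : ℤ) then (1 : ℝ) else 0) +
            ∑ x ∈ box R (0 : Z d), (if x i = -(R : ℤ) then (1 : ℝ) else 0)) :=
          mul_le_mul_of_nonneg_left t0 hR0
      _ = 2 * (2 * (R : ℝ) + 1) ^ d := by rw [mul_add, f1, f2]; ring
  refine (Finset.sum_le_sum fun i _ => h i).trans (le_of_eq ?_)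
  simp
  ring

end Pool.Agent.U874.And
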