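import Pool.Agent.U874.And.Bot

/-! # Anderson model with a flat ground state on the lattice: the bottom of the spectrum, test
functions -/

set_option autoImplicit false

open Filter Topology
open scoped InnerProductSpace ENNReal

namespace Pool.Agent.U874.And

open Pool.Agent.H4R2.AE

variable {d : ℕ} {lam : ℝ} {V : Z d → ℝ} {H : L2 d →L[ℂ] L2 d}

theorem form_up (hH : IsAnderson lam V H) (E : ℝ) (ψ : Z d → ℝ) (h1 : ∀ x, 1 ≤ ψ x)
    (h2 : ∀ x, ψ x ≤ 2) (h : ∀ x, HopZ lam V ψ x = E * ψ x) (ε : ℝ) (hε : 0 < ε) :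
    ∃ f : L2 d, f ≠ 0 ∧ (⟪f, H f⟫_ℂ).re ≤ (E + ε) * ‖f‖ ^ 2 := by
  obtain ⟨R, hR⟩ := exists_nat_ge (8 * d / ε)
  set χ : Z d → ℝ := fun x => if x ∈ box R (0 : Z d) then (1 : ℝ) else 0 with hχ
  have hχ0 : ∀ x ∉ box R (0 : Z d), χ x = 0 := fun x hx => by simp only [hχ]; rw [if_neg hx]
  have hχ1 : ∀ x ∈ box R (0 : Z d), χ x = 1 := fun x hx => by simp only [hχ]; rw [if_pos hx]
  set f : L2 d := ∑ x ∈ box R (0 : Z d), lp.single 2 x ((ψ x : ℝ) : ℂ) with hf
  have hfx : ∀ x, f x = ((ψ x * χ x : ℝ) : ℂ) := by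
    intro x
    rw [hf, lp.coeFn_sum, Finset.sum_apply]
    by_cases hx : x ∈ box R (0 : Z d)
    · rw [Finset.sum_eq_single x]
      · rw [lp.single_apply, Pi.single_eq_same, hχ1 x hx, mul_one]
      · intro y _ hy
        rw [lp.single_apply, Pi.single_eq_of_ne (Ne.symm hy)]
      · intro hn
        exact absurd hx hn
    · rw [hχ0 x hx, mul_zero]
      rw [Finset.sum_eq_zero]
      · simp
      · intro y hy
        rw [lp.single_apply, Pi.single_eq_of_ne]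
        rintro rfl
        exact hx hy
  have hf0 : ∀ x ∉ box R (0 : Z d), f x = 0 := fun x hx => by rw [hfx x, hχ0 x hx]; simp
  have e1 := form_fin hH f (box R (0 : Z d)) hf0
  have e2 := norm_fin f (box R (0 : Z d)) hf0
  have hre : ∀ x, (f x).re = ψ x * χ x := fun x => by rw [hfx x]; exact Complex.ofReal_re _
  have him : ∀ x, (f x).im = 0 := fun x => by rw [hfx x]; exact Complex.ofReal_im _
  simp only [hre, him] at e1 e2
  have e3 := form_eq lam E V ψ χ h (box R (0 : Z d)) hχ0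
  have z1 : ∑ x ∈ box R (0 : Z d), (0 : ℝ) * HopZ lam V (fun _ => 0) x = 0 :=
    Finset.sum_eq_zero fun x _ => zero_mul _
  have z2 : ∑ x ∈ box R (0 : Z d), (0 : ℝ) ^ 2 = 0 := Finset.sum_eq_zero fun x _ => by norm_num
  rw [z1, add_zero] at e1
  rw [z2, add_zero] at e2
  rw [← e1, ← e2] at e3
  have hcard : ((2 * (R : ℝ) + 1) ^ d) ≤ ‖f‖ ^ 2 := by
    rw [e2]
    have h3 : ((2 * (R : ℝ) + 1) ^ d) = ∑ x ∈ box R (0 : Z d), (1 : ℝ) := by
      rw [Finset.sum_const, card_box, nsmul_eq_mul, mul_one]; push_cast; ring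
    rw [h3]
    refine Finset.sum_le_sum fun x hx => ?_
    rw [hχ1 x hx, mul_one]
    have := h1 x
    nlinarith
  have hpos : (0 : ℝ) < (2 * (R : ℝ) + 1) ^ d := by positivity
  refine ⟨f, ?_, ?_⟩
  · intro h0
    rw [h0] at hcard
    simp at hcard
    linarith
  · have h4 := DF_mono ψ (fun _ => 1) χ (box R (0 : Z d)) hχ0 4 (fun x y => by
      have := h1 x; have := h2 x; have := h1 y; have := h2 y
      nlinarith)
    have h5 := DF_box (d := d) R
    have hR1 : (0 : ℝ) < 2 * (R : ℝ) + 1 := by positivity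
    have h6 : (2 * (R : ℝ) + 1) * DF ψ χ ≤ 8 * d * (2 * (R : ℝ) + 1) ^ d := by
      calc (2 * (R : ℝ) + 1) * DF ψ χ ≤ (2 * (R : ℝ) + 1) * (4 * DF (fun _ => 1) χ) :=
            mul_le_mul_of_nonneg_left h4 hR1.le
        _ = 4 * ((2 * (R : ℝ) + 1) * DF (fun _ => 1) χ) := by ring
        _ ≤ 4 * (2 * d * (2 * (R : ℝ) + 1) ^ d) := mul_le_mul_of_nonneg_left h5 (by norm_num)
        _ = _ := by ring
    have h7 : 8 * (d : ℝ) ≤ ε * (2 * (R : ℝ) + 1) := by
      rw [div_le_iff₀ hε] at hR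
      nlinarith
    have h8 : (2 * (R : ℝ) + 1) * DF ψ χ ≤ (2 * (R : ℝ) + 1) * (ε * ‖f‖ ^ 2) := by
      calc (2 * (R : ℝ) + 1) * DF ψ χ ≤ 8 * d * (2 * (R : ℝ) + 1) ^ d := h6
        _ ≤ 8 * d * ‖f‖ ^ 2 := mul_le_mul_of_nonneg_left hcard (by positivity)
        _ ≤ (ε * (2 * (R : ℝ) + 1)) * ‖f‖ ^ 2 := mul_le_mul_of_nonneg_right h7 (by positivity)
        _ = _ := by ring
    have h9 := le_of_mul_le_mul_left h8 hR1
    linarith

end Pool.Agent.U874.And
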