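import Pool.Agent.H4R2.AE.Core2

/-! # Anderson model, rare changes: from the tori to the lattice -/

set_option autoImplicit false

open MeasureTheory Filter Topology

namespace Pool.Agent.U874.And

open Pool.Agent.H4R2.AE

/-- the lattice `ℤ^d` -/
abbrev Z (d : ℕ) : Type := Fin d → ℤ

/-- `-Δ + lam V` on real functions on `ℤ^d` -/
noncomputable def HopZ {d : ℕ} (lam : ℝ) (V f : Z d → ℝ) (x : Z d) : ℝ :=
  ∑ i : Fin d, (2 * f x - f (x + Pi.single i 1) - f (x - Pi.single i 1)) + lam * V x * f x

/-- pairs of potentials -/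
abbrev XX (d : ℕ) : Type := (Z d → ℝ) × (Z d → ℝ)

/-- translation of pairs of potentials -/
def sh {d : ℕ} (a : Z d) (p : XX d) : XX d := (fun x => p.1 (x + a), fun x => p.2 (x + a))

/-- projection to the torus -/
def q {d : ℕ} (L : ℕ) (x : Z d) : T d L := fun i => (x i : ZMod L)

lemma q_add {d : ℕ} (L : ℕ) (x y : Z d) : q L (x + y) = q L x + q L y := by
  funext i; simp [q]

lemma q_sub {d : ℕ} (L : ℕ) (x y : Z d) : q L (x - y) = q L x - q L y := by
  funext i; simp [q]

lemma q_single {d : ℕ} (L : ℕ) (i : Fin d) :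
    q L (Pi.single i 1 : Z d) = (Pi.single i 1 : T d L) := by
  funext j
  unfold q
  by_cases h : j = i
  · subst h; simp
  · simp [Pi.single_eq_of_ne h]

lemma hop_per {d L : ℕ} (lam : ℝ) (V f : T d L → ℝ) (x : Z d) :
    HopZ lam (fun y => V (q L y)) (fun y => f (q L y)) x = Hop lam V f (q L x) := by
  unfold HopZ Hop
  simp only [q_add, q_sub, q_single]

lemma measurable_sh {d : ℕ} (a : Z d) : Measurable (sh a) := by
  unfold sh
  fun_prop

lemma continuous_sh {d : ℕ} (a : Z d) : Continuous (sh a) := by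
  unfold sh
  fun_prop

/-- the periodised pair -/
def per {d : ℕ} (L : ℕ) (Φ : (T d L → ℝ) → (T d L → ℝ)) (V : T d L → ℝ) : XX d :=
  (fun x => V (q L x), fun x => Φ V (q L x))

lemma measurable_per {d : ℕ} (L : ℕ) (Φ : (T d L → ℝ) → (T d L → ℝ)) (hΦ : Measurable Φ) :
    Measurable (per L Φ) := by
  unfold per
  refine Measurable.prodMk ?_ ?_
  · exact measurable_pi_lambda _ fun x => measurable_pi_apply _
  · exact measurable_pi_lambda _ fun x => (measurable_pi_apply _).comp hΦ

lemma per_shift {d : ℕ} (L : ℕ) [NeZero L] (Φ : (T d L → ℝ) → (T d L → ℝ)) (hΦ : Measurable Φ)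
    (hs : ∀ (V : T d L → ℝ) (a : T d L), Φ (fun x => V (x + a)) = fun x => Φ V (x + a))
    (μ : Measure ℝ) [IsProbabilityMeasure μ] (a : Z d) :
    ((Measure.pi fun _ : T d L => μ).map (per L Φ)).map (sh a) =
      (Measure.pi fun _ : T d L => μ).map (per L Φ) := by
  rw [Measure.map_map (measurable_sh a) (measurable_per L Φ hΦ)]
  have hmp := Good.good_mp (L := L) μ (q L a)
  have e : sh a ∘ per L Φ = per L Φ ∘ fun (V : T d L → ℝ) (y : T d L) => V (y + q L a) := by
    funext V
    simp only [Function.comp, sh, per, q_add]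
    rw [hs V (q L a)]
  rw [e, ← Measure.map_map (measurable_per L Φ hΦ) hmp.measurable, hmp.map_eq]

/-- the periodised potential is iid on sets where the projection is injective -/
lemma per_fst {d : ℕ} (L : ℕ) [NeZero L] (Φ : (T d L → ℝ) → (T d L → ℝ)) (hΦ : Measurable Φ)
    (μ : Measure ℝ) [IsProbabilityMeasure μ] (I : Finset (Z d))
    (hI : Set.InjOn (q L) (I : Set (Z d))) :
    ((Measure.pi fun _ : T d L => μ).map (per L Φ)).map (fun p => I.restrict p.1) =
      Measure.pi fun _ : I => μ := by
  rw [Measure.map_map (by fun_prop) (measurable_per L Φ hΦ)]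
  have hJ : Function.Injective (fun x : I => q L (x : Z d)) := by
    intro x y hxy
    exact Subtype.ext (hI x.2 y.2 hxy)
  symm
  refine Measure.pi_eq fun s hs => ?_
  rw [Measure.map_apply ((by fun_prop : Measurable (fun p : XX d => I.restrict p.1)).comp
    (measurable_per L Φ hΦ)) (MeasurableSet.univ_pi hs)]
  -- preimage as a box
  classical
  set t : T d L → Set ℝ := fun z => if h : ∃ x : I, q L (x : Z d) = z then s h.choose else Set.univ
    with ht
  have htq : ∀ x : I, t (q L (x : Z d)) = s x := by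
    intro x
    have h : ∃ x' : I, q L (x' : Z d) = q L (x : Z d) := ⟨x, rfl⟩
    have h2 : h.choose = x := hJ h.choose_spec
    simp only [ht]
    rw [dif_pos h, h2]
  have hpre : ((fun p : XX d => I.restrict p.1) ∘ per L Φ) ⁻¹' Set.univ.pi s =
      Set.univ.pi t := by
    ext V
    simp only [Set.mem_preimage, Function.comp, Set.mem_pi, Set.mem_univ, true_implies, per,
      Finset.restrict]
    constructor
    · intro h z
      by_cases hz : ∃ x : I, q L (x : Z d) = z
      · obtain ⟨x, hx⟩ := hz
        rw [← hx, htq x]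
        exact h x
      · simp only [ht]
        rw [dif_neg hz]
        exact Set.mem_univ _
    · intro h x
      rw [← htq x]
      exact h _
  rw [hpre, Measure.pi_pi]
  rw [← Finset.prod_subset (Finset.subset_univ (Finset.univ.image fun x : I => q L (x : Z d)))]
  · rw [Finset.prod_image fun x _ y _ h => hJ h]
    exact Finset.prod_congr rfl fun x _ => by rw [htq x]
  · intro z _ hz
    have hz' : ¬ ∃ x : I, q L (x : Z d) = z := by
      rintro ⟨x, hx⟩
      exact hz (Finset.mem_image.2 ⟨x, Finset.mem_univ _, hx⟩)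
    simp only [ht]
    rw [dif_neg hz', measure_univ]

/-- the projection is injective on finite sets for large `L` -/
lemma q_injOn {d : ℕ} (I : Finset (Z d)) : ∃ L0 : ℕ, ∀ L : ℕ, L0 ≤ L → Set.InjOn (q L) (I : Set (Z d)) := by
  refine ⟨2 * (I.sup fun x => Finset.univ.sup fun i => (x i).natAbs) + 1, fun L hL x hx y hy hxy => ?_⟩
  funext i
  have h1 : (x i).natAbs ≤ I.sup fun x => Finset.univ.sup fun i => (x i).natAbs :=
    (Finset.le_sup (f := fun i => (x i).natAbs) (Finset.mem_univ i)).trans
      (Finset.le_sup (f := fun x : Z d => Finset.univ.sup fun i => (x i).natAbs) hx)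
  have h2 : (y i).natAbs ≤ I.sup fun x => Finset.univ.sup fun i => (x i).natAbs :=
    (Finset.le_sup (f := fun i => (y i).natAbs) (Finset.mem_univ i)).trans
      (Finset.le_sup (f := fun x : Z d => Finset.univ.sup fun i => (x i).natAbs) hy)
  have h3 : ((x i : ℤ) : ZMod L) = ((y i : ℤ) : ZMod L) := congrFun hxy i
  rw [ZMod.intCast_eq_intCast_iff_dvd_sub] at h3
  obtain ⟨k, hk⟩ := h3
  by_contra hne
  have hk0 : k ≠ 0 := by
    rintro rfl
    apply hne
    simp at hk
    omega
  have h4 : (L : ℤ) ≤ |y i - x i| := by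
    rw [hk, abs_mul]
    have : 1 ≤ |k| := Int.one_le_abs hk0
    have hL0 : |(L : ℤ)| = L := abs_of_nonneg (by positivity)
    rw [hL0]
    nlinarith
  have h5 : |y i - x i| ≤ (y i).natAbs + (x i).natAbs := by
    rw [Int.natCast_natAbs, Int.natCast_natAbs]
    exact abs_sub _ _
  omega

end Pool.Agent.U874.And
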