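import Pool.Agent.U874.And.Cpt2

/-! # From the tori to the lattice, laws of the disorder with arbitrary support -/

set_option autoImplicit false

open MeasureTheory Filter Topology

namespace Pool.Agent.U874.And

open Pool.Agent.H4R2.AE

/-- the limit theorem, laws with arbitrary support -/
theorem cptG (d : ℕ) (μ : Measure ℝ) [IsProbabilityMeasure μ]
    (lam η r B EB : ℝ) (hη1 : η ≤ 1)
    (H : ∀ (L : ℕ) [NeZero L], ∃ E : ℝ, |E| ≤ EB + 1 / (L : ℝ) ^ 2 ∧ ∃ Φ : (T d L → ℝ) → (T d L → ℝ), Measurable Φ ∧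
        (∀ (V : T d L → ℝ) (a : T d L), Φ (fun x => V (x + a)) = fun x => Φ V (x + a)) ∧
        (∀ x, (Measure.pi fun _ : T d L => μ).real {V | Φ V x ≠ V x} ≤ r) ∧
        ∀ V : T d L → ℝ, (∀ x, |Φ V x| ≤ B) ∧ Core.FlatE lam η (1 / (L : ℝ) ^ 2) E (Φ V)) :
    ∃ E : ℝ, |E| ≤ EB ∧ ∃ P : Measure (XX d), IsProbabilityMeasure P ∧
      P.map Prod.fst = Measure.infinitePi (fun _ : Z d => μ) ∧ (∀ a, P.map (sh a) = P) ∧
      P.real {p | p.2 0 ≠ p.1 0} ≤ r ∧
      ∀ᵐ p ∂P, (∀ x, |p.2 x| ≤ B) ∧ p ∈ FS lam η E 0 := by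
  have hne : ∀ n : ℕ, NeZero (n + 1) := fun n => ⟨Nat.succ_ne_zero n⟩
  choose E hE Φ hΦm hΦs hΦr hΦ using fun n : ℕ => H (n + 1)
  -- the laws
  set Q : ℕ → Measure (XX d) := fun n =>
    (Measure.pi fun _ : T d (n + 1) => μ).map (per (n + 1) (Φ n)) with hQ
  have hQp : ∀ n, IsProbabilityMeasure (Q n) := fun n =>
    Measure.isProbabilityMeasure_map (measurable_per (n + 1) (Φ n) (hΦm n)).aemeasurable
  set Qp : ℕ → ProbabilityMeasure (XX d) := fun n => ⟨Q n, hQp n⟩ with hQp'
  -- tightness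
  have htight : IsTightMeasureSet {((ν : ProbabilityMeasure (XX d)) : Measure (XX d)) |
      ν ∈ Set.range Qp} := by
    rw [isTightMeasureSet_iff_exists_isCompact_measure_compl_le]
    intro ε hε
    obtain ⟨ε', hε', hsum⟩ := ENNReal.exists_pos_sum_of_countable' hε.ne' (Z d)
    have hμt := isTightMeasureSet_singleton (μ := μ)
    rw [isTightMeasureSet_iff_exists_isCompact_measure_compl_le] at hμt
    choose K' hK'c hK' using fun x : Z d => hμt (ε' x) (hε' x)
    refine ⟨(Set.univ.pi K') ×ˢ (Set.univ.pi fun _ => Set.Icc (-B) B),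
      (isCompact_univ_pi hK'c).prod (isCompact_univ_pi fun _ => isCompact_Icc), ?_⟩
    rintro ν ⟨ν', ⟨n, rfl⟩, rfl⟩
    have hsub : ((Set.univ.pi K') ×ˢ (Set.univ.pi fun _ : Z d => Set.Icc (-B) B))ᶜ ⊆
        (⋃ x : Z d, {p : XX d | p.1 x ∈ (K' x)ᶜ}) ∪ {p : XX d | ¬ ∀ x, |p.2 x| ≤ B} := by
      intro p hp
      by_contra hn
      simp only [Set.mem_union, Set.mem_iUnion, Set.mem_ofPred_eq, Set.mem_compl_iff, not_or,
        not_exists, not_not] at hn
      apply hp
      exact ⟨fun x _ => hn.1 x, fun x _ => abs_le.1 (hn.2 x)⟩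
    have h1 : ∀ x : Z d, Q n {p : XX d | p.1 x ∈ (K' x)ᶜ} ≤ ε' x := by
      intro x
      have hms : MeasurableSet ((K' x)ᶜ) := (hK'c x).isClosed.measurableSet.compl
      rw [hQ]
      simp only
      have hms2 : MeasurableSet {p : XX d | p.1 x ∈ (K' x)ᶜ} :=
        ((measurable_pi_apply x).comp measurable_fst) hms
      rw [Measure.map_apply (measurable_per (n + 1) (Φ n) (hΦm n)) hms2]
      have e1 : per (n + 1) (Φ n) ⁻¹' {p : XX d | p.1 x ∈ (K' x)ᶜ} =
          (Function.eval (q (n + 1) x)) ⁻¹' ((K' x)ᶜ) := rfl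
      rw [e1, (measurePreserving_eval (fun _ : T d (n + 1) => μ) (q (n + 1) x)).measure_preimage
        hms.nullMeasurableSet]
      exact hK' x μ rfl
    have h2 : Q n {p : XX d | ¬ ∀ x, |p.2 x| ≤ B} = 0 := by
      have hc : IsClosed {p : XX d | ∀ x, |p.2 x| ≤ B} := by
        simp only [Set.ofPred_forall]
        exact isClosed_iInter fun x => isClosed_le (by fun_prop) continuous_const
      have h3 : ∀ᵐ p ∂(Q n), p ∈ {p : XX d | ∀ x, |p.2 x| ≤ B} := by
        rw [hQ]
        refine (ae_map_iff (measurable_per (n + 1) (Φ n) (hΦm n)).aemeasurable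
          hc.measurableSet).2 ?_
        exact Filter.Eventually.of_forall fun V x => (hΦ n V).1 _
      exact h3
    calc (Q n) ((Set.univ.pi K') ×ˢ (Set.univ.pi fun _ : Z d => Set.Icc (-B) B))ᶜ
        ≤ Q n ((⋃ x : Z d, {p : XX d | p.1 x ∈ (K' x)ᶜ}) ∪ {p : XX d | ¬ ∀ x, |p.2 x| ≤ B}) :=
          measure_mono hsub
      _ ≤ Q n (⋃ x : Z d, {p : XX d | p.1 x ∈ (K' x)ᶜ}) + Q n {p : XX d | ¬ ∀ x, |p.2 x| ≤ B} :=
          measure_union_le _ _
      _ ≤ ∑' x : Z d, Q n {p : XX d | p.1 x ∈ (K' x)ᶜ} + 0 := by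
          rw [h2]
          exact add_le_add (measure_iUnion_le _) le_rfl
      _ ≤ ∑' x : Z d, ε' x := by rw [add_zero]; exact ENNReal.tsum_le_tsum h1
      _ ≤ ε := hsum.le
  -- the ultrafilter limit
  set U : Filter ℕ := (hyperfilter ℕ : Filter ℕ) with hU
  have hUt : ∀ {p : ℕ → Prop}, (∀ᶠ n in atTop, p n) → ∀ᶠ n in U, p n := fun h =>
    Nat.hyperfilter_le_atTop h
  have hcomp := isCompact_closure_of_isTightMeasureSet htight
  obtain ⟨Pp, hPp, hPle⟩ := hcomp.ultrafilter_le_nhds ((hyperfilter ℕ : Ultrafilter ℕ).map Qp)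
    (by
      rw [Ultrafilter.coe_map, le_principal_iff, mem_map]
      exact Filter.Eventually.of_forall fun (n : ℕ) => subset_closure ⟨n, rfl⟩)
  have hPt : Tendsto Qp U (𝓝 Pp) := hPle
  have hE1 : ∀ n, |E n| ≤ EB + 1 / ((n : ℝ) + 1) := by
    intro n
    refine (hE n).trans ?_
    have h5 : (0 : ℝ) ≤ n := Nat.cast_nonneg n
    have h6 : 1 / (((n + 1 : ℕ) : ℝ)) ^ 2 ≤ 1 / ((n : ℝ) + 1) := by
      push_cast
      apply one_div_le_one_div_of_le (by positivity)
      nlinarith
    linarith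
  obtain ⟨E', -, hEle⟩ := (isCompact_Icc (a := -(EB + 1)) (b := EB + 1)).ultrafilter_le_nhds
    ((hyperfilter ℕ : Ultrafilter ℕ).map E)
    (by
      rw [Ultrafilter.coe_map, le_principal_iff, mem_map]
      refine Filter.Eventually.of_forall fun (n : ℕ) => abs_le.1 ((hE1 n).trans ?_)
      have h5 : (0 : ℝ) ≤ n := Nat.cast_nonneg n
      have : 1 / ((n : ℝ) + 1) ≤ 1 := by rw [div_le_one (by positivity)]; linarith
      linarith)
  have hEt : Tendsto E U (𝓝 E') := hEle
  have hE' : |E'| ≤ EB := by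
    have ht2 : Tendsto (fun n : ℕ => EB + 1 / ((n : ℝ) + 1)) U (𝓝 (EB + 0)) :=
      (tendsto_one_div_add_atTop_nhds_zero_nat.mono_left Nat.hyperfilter_le_atTop).const_add EB
    rw [add_zero] at ht2
    exact le_of_tendsto_of_tendsto' hEt.abs ht2 hE1
  -- closed sets
  have hclosed : ∀ F : Set (XX d), IsClosed F → (∀ᶠ n in U, Q n F = 1) →
      (Pp : Measure (XX d)) F = 1 := by
    intro F hF h
    have h1 := ProbabilityMeasure.limsup_measure_closed_le_of_tendsto hPt hF
    have h2 : (U.limsup fun i => (Qp i : Measure (XX d)) F) = 1 := by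
      have h3 : (U.limsup fun i => (Qp i : Measure (XX d)) F) = U.limsup fun _ => (1 : ENNReal) :=
        limsup_congr h
      rw [h3, limsup_const]
    rw [h2] at h1
    exact le_antisymm prob_le_one h1
  refine ⟨E', hE', (Pp : Measure (XX d)), inferInstance, ?_, ?_, ?_, ?_⟩
  · -- first marginal
    have hproj : IsProjectiveLimit ((Pp : Measure (XX d)).map Prod.fst)
        (fun I : Finset (Z d) => Measure.pi fun _ : I => μ) := by
      intro I
      rw [Measure.map_map (by fun_prop) measurable_fst]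
      obtain ⟨L0, hL0⟩ := q_injOn I
      have hc : Continuous (fun p : XX d => I.restrict p.1) := by fun_prop
      have h1 := ProbabilityMeasure.tendsto_map_of_tendsto_of_continuous Qp Pp hPt hc
      have h2 : ∀ᶠ n in U, (Qp n).map hc.measurable.aemeasurable =
          (⟨Measure.pi fun _ : I => μ, inferInstance⟩ : ProbabilityMeasure (I → ℝ)) := by
        apply hUt
        filter_upwards [eventually_ge_atTop L0] with n hn
        apply ProbabilityMeasure.toMeasure_injective
        rw [ProbabilityMeasure.toMeasure_map]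
        exact per_fst (n + 1) (Φ n) (hΦm n) μ I (hL0 (n + 1) (by omega))
      have h3 : Tendsto (fun n => (Qp n).map hc.measurable.aemeasurable) U
          (𝓝 (⟨Measure.pi fun _ : I => μ, inferInstance⟩ : ProbabilityMeasure (I → ℝ))) :=
        (tendsto_congr' h2).2 tendsto_const_nhds
      have h4 := tendsto_nhds_unique h1 h3
      have h5 := congrArg (fun m : ProbabilityMeasure (I → ℝ) => (m : Measure (I → ℝ))) h4
      simp only [ProbabilityMeasure.toMeasure_map] at h5
      exact h5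
    exact hproj.unique (Measure.isProjectiveLimit_infinitePi fun _ : Z d => μ)
  · intro a
    have h1 := ProbabilityMeasure.tendsto_map_of_tendsto_of_continuous Qp Pp hPt (continuous_sh a)
    have h2 : (fun n => (Qp n).map (continuous_sh a).measurable.aemeasurable) = Qp := by
      funext n
      apply ProbabilityMeasure.toMeasure_injective
      rw [ProbabilityMeasure.toMeasure_map]
      exact per_shift (n + 1) (Φ n) (hΦm n) (hΦs n) μ a
    rw [h2] at h1
    have h4 := tendsto_nhds_unique h1 hPt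
    have h5 := congrArg (fun m : ProbabilityMeasure (XX d) => (m : Measure (XX d))) h4
    simp only [ProbabilityMeasure.toMeasure_map] at h5
    exact h5
  · -- the density of the changes
    have hopen : IsOpen {p : XX d | p.2 0 ≠ p.1 0} := by
      refine isOpen_ne_fun ?_ ?_ <;> fun_prop
    have h1 := ProbabilityMeasure.le_liminf_measure_open_of_tendsto hPt hopen
    have h2 : (U.liminf fun i => (Qp i : Measure (XX d)) {p : XX d | p.2 0 ≠ p.1 0}) ≤
        ENNReal.ofReal r := by
      refine (liminf_le_liminf (v := fun _ => ENNReal.ofReal r)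
        (Filter.Eventually.of_forall fun n => ?_)).trans (by rw [liminf_const])
      have h3 : (Qp n : Measure (XX d)) {p : XX d | p.2 0 ≠ p.1 0} =
          (Measure.pi fun _ : T d (n + 1) => μ) {V | Φ n V (q (n + 1) 0) ≠ V (q (n + 1) 0)} := by
        rw [hQp']
        simp only [ProbabilityMeasure.coe_mk]
        rw [hQ]
        simp only
        rw [Measure.map_apply (measurable_per (n + 1) (Φ n) (hΦm n)) hopen.measurableSet]
        rfl
      rw [h3]
      have h4 := hΦr n (q (n + 1) 0)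
      rw [← ENNReal.ofReal_toReal (measure_ne_top (Measure.pi fun _ : T d (n + 1) => μ)
        {V | Φ n V (q (n + 1) 0) ≠ V (q (n + 1) 0)})]
      exact ENNReal.ofReal_le_ofReal h4
    have hr : 0 ≤ r := le_trans measureReal_nonneg (hΦr 0 0)
    exact ENNReal.toReal_le_of_le_ofReal hr (h1.trans h2)
  · have hone : ∀ (n : ℕ) (F : Set (XX d)), IsClosed F →
        (∀ V : T d (n + 1) → ℝ, per (n + 1) (Φ n) V ∈ F) → Q n F = 1 := by
      intro n F hF h
      rw [← prob_compl_eq_zero_iff₀ hF.measurableSet.nullMeasurableSet]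
      have h2 : ∀ᵐ p ∂(Q n), p ∈ F := by
        rw [hQ]
        refine (ae_map_iff (measurable_per (n + 1) (Φ n) (hΦm n)).aemeasurable
          hF.measurableSet).2 ?_
        exact Filter.Eventually.of_forall fun V => h V
      exact h2
    have hAE : ∀ F : Set (XX d), IsClosed F → (∀ᶠ n in U, Q n F = 1) →
        ∀ᵐ p ∂(Pp : Measure (XX d)), p ∈ F := by
      intro F hF h
      have h1 := hclosed F hF h
      rw [← prob_compl_eq_zero_iff₀ hF.measurableSet.nullMeasurableSet] at h1
      exact h1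
    have hB : ∀ᵐ p ∂(Pp : Measure (XX d)), p ∈ {p : XX d | ∀ x, |p.2 x| ≤ B} := by
      have hc : IsClosed {p : XX d | ∀ x, |p.2 x| ≤ B} := by
        simp only [Set.ofPred_forall]
        exact isClosed_iInter fun x => isClosed_le (by fun_prop) continuous_const
      exact hAE _ hc (Filter.Eventually.of_forall fun n => hone n _ hc fun V x => (hΦ n V).1 _)
    have hC : ∀ m : ℕ, ∀ᵐ p ∂(Pp : Measure (XX d)), p ∈ FS lam η E' (1 / ((m : ℝ) + 1)) := by
      intro m
      refine hAE _ (isClosed_FS lam η E' _) ?_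
      have hm : (0 : ℝ) < 1 / ((m : ℝ) + 1) / 4 := by positivity
      have e1 : ∀ᶠ n in U, |E n - E'| < 1 / ((m : ℝ) + 1) / 4 := by
        have := Metric.tendsto_nhds.1 hEt _ hm
        filter_upwards [this] with n hn
        rwa [Real.dist_eq] at hn
      have e2 : ∀ᶠ n : ℕ in U, 1 / (((n + 1 : ℕ) : ℝ)) ^ 2 < 1 / ((m : ℝ) + 1) / 4 := by
        apply hUt
        have h3 : Tendsto (fun n : ℕ => 1 / ((n : ℝ) + 1)) atTop (𝓝 0) :=
          tendsto_one_div_add_atTop_nhds_zero_nat
        filter_upwards [h3.eventually_lt_const hm] with n hn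
        refine lt_of_le_of_lt ?_ hn
        push_cast
        have h5 : (0 : ℝ) ≤ n := Nat.cast_nonneg n
        apply one_div_le_one_div_of_le (by positivity)
        nlinarith
      filter_upwards [e1, e2] with n h1 h2
      refine hone n _ (isClosed_FS lam η E' _) fun V => ?_
      obtain ⟨E0, ψ, h3, h4, h5, -⟩ := (hΦ n V).2
      refine ⟨fun x => ψ (q (n + 1) x), fun x => h4 _, fun x => ?_⟩
      have h6 : HopZ lam (per (n + 1) (Φ n) V).2 (fun x => ψ (q (n + 1) x)) x =
          E0 * ψ (q (n + 1) x) := by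
        rw [← h5 (q (n + 1) x)]
        exact hop_per lam (Φ n V) ψ x
      rw [h6, ← sub_mul, abs_mul]
      have h7 := h4 (q (n + 1) x)
      have h8 : |ψ (q (n + 1) x)| ≤ 2 := by
        rw [abs_of_nonneg (by linarith [h7.1])]
        linarith [h7.2]
      have h9 : |E0 - E'| ≤ 1 / ((m : ℝ) + 1) / 2 := by
        calc |E0 - E'| = |(E0 - E n) + (E n - E')| := by ring_nf
          _ ≤ |E0 - E n| + |E n - E'| := abs_add_le _ _
          _ ≤ _ := by linarith
      calc |E0 - E'| * |ψ (q (n + 1) x)| ≤ 1 / ((m : ℝ) + 1) / 2 * 2 :=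
            mul_le_mul h9 h8 (abs_nonneg _) (by positivity)
        _ = 1 / ((m : ℝ) + 1) := by ring
    filter_upwards [hB, ae_all_iff.2 hC] with p h2 h3
    exact ⟨h2, FS_inter lam η E' p h3⟩

end Pool.Agent.U874.And
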