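import Pool.Agent.H4R2.AE.TorG
import Pool.Agent.H4R2.AE.Modi

/-! # Gaussian disorder on the torus: changes of the potential at sites of density
`exp(-c / σ²)` -/

set_option autoImplicit false

open MeasureTheory ProbabilityTheory Filter Topology

namespace Pool.Agent.U874.And

open Pool.Agent.H4R2.AE

theorem modiG (d : ℕ) (hd : 5 ≤ d) (η : ℝ) (hη : 0 < η) (hη' : η ≤ 1) : ∃ c : ℝ, 0 < c ∧ c ≤ 1 ∧
    ∀ σ : ℝ, 0 < σ → σ ≤ c → ∀ (L : ℕ) [NeZero L],
      ∃ E : ℝ, |E| ≤ 1 ∧ ∃ Φ : (T d L → ℝ) → (T d L → ℝ), Measurable Φ ∧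
        (∀ (ξ : T d L → ℝ) (a : T d L), Φ (fun x => ξ (x + a)) = fun x => Φ ξ (x + a)) ∧
        (∀ x, (Measure.pi fun _ : T d L => gaussianReal 0 1).real {ξ | Φ ξ x ≠ ξ x} ≤
          Real.exp (-(c / σ ^ 2))) ∧
        ∀ ξ : T d L → ℝ, (∀ x, |Φ ξ x| ≤ 3 / σ) ∧
          Core.FlatE σ η (1 / (L : ℝ) ^ 2) E (Φ ξ) := by
  obtain ⟨C, hC, hflat⟩ := Core2.gen d (by omega)
  have hC0 : 0 < C := by linarith
  set δ : ℝ := min (1 / 8) (η / (2 * C)) with hδ
  have hδ0 : 0 < δ := by positivity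
  have hδ8 : δ ≤ 1 / 8 := min_le_left _ _
  have hδC : 2 * δ ≤ η / C := by
    have h := min_le_right (1 / 8) (η / (2 * C))
    rw [← hδ] at h
    calc 2 * δ ≤ 2 * (η / (2 * C)) := by linarith
      _ = η / C := by field_simp
  obtain ⟨A, hA, HA⟩ := TorG.sq_bound d (by omega)
  have hd4 : ¬ d = 4 := by omega
  simp only [hd4, if_false] at HA
  set b : ℝ := min (δ ^ 2 / (120 * A)) (1 / 2) with hb
  have hbpos : 0 < b := by positivity
  have hd3 : (0 : ℝ) < (d : ℝ) + 3 := by positivity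
  set c : ℝ := b / (d + 3) with hc
  have hcpos : 0 < c := by positivity
  have hc1 : c ≤ 1 := by
    rw [hc, div_le_one hd3]
    have h1 : b ≤ 1 / 2 := min_le_right _ _
    have h2 : (0 : ℝ) ≤ d := Nat.cast_nonneg d
    linarith
  have hcb : ((d : ℝ) + 3) * c ≤ b := by
    rw [hc]
    apply le_of_eq
    field_simp
  refine ⟨c, hcpos, hc1, ?_⟩
  intro σ hσ hσc L _
  have hLpos := Core.L_pos (L := L)
  set κ : ℝ := 1 / (4 * (L : ℝ) ^ 2) with hκ
  have hκ0 : 0 < κ := by positivity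
  obtain ⟨E, hE, hE0⟩ := Goodg.goodg_E (d := d) (L := L) κ hκ0 σ δ hδ0
  set W : (T d L → ℝ) → (T d L → ℝ) := fun ξ => Good.W 1 δ κ E (fun y => σ * ξ y) with hW
  set Φ : (T d L → ℝ) → (T d L → ℝ) := fun ξ x =>
    (1 / σ) * (Good.clamp (fun y => σ * ξ y) x + Modi.b0 δ (W ξ x)) with hΦ
  have hWc : ∀ x, Continuous fun ξ : T d L → ℝ => W ξ x := fun x =>
    Goodg.goodg_contF κ hκ0 σ δ hδ0 E hE x
  have hbW : ∀ ξ x, |W ξ x| ≤ 2 * δ := fun ξ x =>
    Good.good_bound 1 δ κ E one_pos hδ0 hκ0 hE _ x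
  refine ⟨E, hE, Φ, ?_, ?_, ?_, ?_⟩
  · refine measurable_pi_lambda _ fun x => ?_
    have h1 : Continuous fun ξ : T d L → ℝ => Good.clamp (fun y => σ * ξ y) x := by
      unfold Good.clamp
      fun_prop
    have h2 : Continuous fun ξ : T d L → ℝ => Modi.b0 δ (W ξ x) :=
      (Modi.modi_b0_cont δ).comp (hWc x)
    exact (continuous_const.mul (h1.add h2)).measurable
  · intro ξ a
    funext x
    simp only [hΦ]
    have e1 : W (fun x => ξ (x + a)) x = W ξ (x + a) :=
      Good.good_shift 1 δ κ E one_pos hδ0 hκ0 hE (fun y => σ * ξ y) a x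
    rw [e1]
    rfl
  · intro x
    have hsub : {ξ : T d L → ℝ | Φ ξ x ≠ ξ x} ⊆
        {ξ | δ ≤ |Good.W 1 δ κ E (fun y => σ * ξ y) x|} ∪ {ξ | 1 < |σ * ξ x|} := by
      intro ξ hξ
      by_contra hn
      simp only [Set.mem_union, Set.mem_ofPred_eq, not_or, not_le, not_lt] at hn
      apply hξ
      simp only [hΦ]
      rw [Modi.modi_b0_zero δ _ hn.1, add_zero]
      have e2 : Good.clamp (fun y => σ * ξ y) x = σ * ξ x := by
        unfold Good.clamp
        have := abs_le.1 hn.2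
        rw [min_eq_right this.2, max_eq_right this.1]
      rw [e2]
      field_simp
    refine (measureReal_mono hsub).trans ((measureReal_union_le _ _).trans ?_)
    have h1 := Goodg.goodg_two κ hκ0 A hA σ δ hσ hδ0 hδ8 (fun u Gr x0 h1 h2 h3 =>
      HA L δ hδ8 u Gr x0 h1 h2 h3) E hE x (hE0 x)
    have h2 := Goodg.goodg_gauss (d := d) (L := L) σ hσ x
    refine (add_le_add h1 h2).trans ?_
    have hs1 : σ ^ 2 ≤ c := by nlinarith
    have h3 := TorG.unionG d b c hcpos (by linarith) (σ ^ 2) (by positivity) hs1 1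
      (by push_cast; exact Real.one_le_exp (by positivity)) (-(δ ^ 2 / (120 * A * σ ^ 2)))
      (-(1 / (2 * σ ^ 2))) (by
        rw [neg_div, neg_le_neg_iff, ← div_div]
        exact div_le_div_of_nonneg_right (min_le_left _ _) (by positivity)) (by
        rw [neg_div, neg_le_neg_iff, ← div_div]
        exact div_le_div_of_nonneg_right (min_le_right _ _) (by positivity))
    push_cast at h3
    rw [one_pow, one_mul, neg_div] at h3
    exact h3
  · intro ξ
    have hsol := Good.good_W 1 δ κ E (fun y => σ * ξ y) one_pos hδ0 hκ0 hE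
    refine ⟨fun x => ?_, hflat L σ η E hη hη' (Φ ξ) (W ξ) (fun x => (hbW ξ x).trans hδC) ?_⟩
    · simp only [hΦ]
      rw [abs_mul, abs_of_pos (by positivity : 0 < 1 / σ)]
      have h1 := Good.good_clamp_le (fun y => σ * ξ y) x
      have h2 := Modi.modi_b0_le δ _ hδ0 (hbW ξ x)
      have h3 : |Good.clamp (fun y => σ * ξ y) x + Modi.b0 δ (W ξ x)| ≤ 3 :=
        (abs_add_le _ _).trans (by linarith)
      calc 1 / σ * |Good.clamp (fun y => σ * ξ y) x + Modi.b0 δ (W ξ x)| ≤ 1 / σ * 3 :=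
            mul_le_mul_of_nonneg_left h3 (by positivity)
        _ = 3 / σ := by ring
    · intro x
      have hx := hsol x
      rw [Modi.modi_b0_beta, one_mul, one_mul] at hx
      have e3 : σ * Φ ξ x = Good.clamp (fun y => σ * ξ y) x + Modi.b0 δ (W ξ x) := by
        simp only [hΦ]
        field_simp
      rw [e3]
      simp only [hW] at hx ⊢
      linarith

end Pool.Agent.U874.And
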