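import Pool.Agent.U874.And.Gau

/-! # Gaussian disorder on the torus: the energy is `O(σ)` -/

set_option autoImplicit false

open MeasureTheory ProbabilityTheory Filter Topology

namespace Pool.Agent.U874.And

open Pool.Agent.H4R2.AE

lemma gauss_abs : Integrable (fun t : ℝ => |t|) (gaussianReal 0 1) ∧
    ∫ t, |t| ∂(gaussianReal 0 1) ≤ 1 := by
  have hm : MemLp id 2 (gaussianReal 0 1) := memLp_id_gaussianReal' 2 (by simp)
  have h2 : Integrable (fun t : ℝ => t ^ 2) (gaussianReal 0 1) := hm.integrable_sq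
  have h1 : Integrable (fun t : ℝ => t) (gaussianReal 0 1) := by
    have := hm.integrable (by norm_num)
    exact this
  have hv : ∫ t, t ^ 2 ∂(gaussianReal 0 1) = 1 := by
    have h3 := variance_id_gaussianReal (μ := 0) (v := 1)
    rw [variance_eq_sub hm] at h3
    have h4 : (gaussianReal 0 1)[id] = 0 := integral_id_gaussianReal
    rw [h4] at h3
    have h5 : (gaussianReal 0 1)[id ^ 2] = ∫ t, t ^ 2 ∂(gaussianReal 0 1) := rfl
    rw [h5] at h3
    simpa using h3
  refine ⟨h1.abs, ?_⟩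
  have h3 : ∫ t, |t| ∂(gaussianReal 0 1) ≤ ∫ t, (1 / 2 + 1 / 2 * t ^ 2) ∂(gaussianReal 0 1) := by
    refine integral_mono h1.abs ((integrable_const _).add (h2.const_mul _)) fun t => ?_
    have : 0 ≤ (|t| - 1) ^ 2 := sq_nonneg _
    have e : (|t| - 1) ^ 2 = t ^ 2 - 2 * |t| + 1 := by rw [← sq_abs t]; ring
    rw [e] at this
    change |t| ≤ 1 / 2 + 1 / 2 * t ^ 2
    linarith
  refine h3.trans (le_of_eq ?_)
  rw [integral_add (integrable_const _) (h2.const_mul _), integral_const, integral_const_mul, hv]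
  simp
  norm_num

lemma energy {d L : ℕ} [NeZero L] (η c σ E : ℝ) (hη1 : η ≤ 1) (hc : 0 < c)
    (hσ : 0 < σ) (hσc : σ ≤ c) (Φ : (T d L → ℝ) → (T d L → ℝ)) (hΦm : Measurable Φ)
    (hP : ∀ x, (Measure.pi fun _ : T d L => gaussianReal 0 1).real {ξ | Φ ξ x ≠ ξ x} ≤
      Real.exp (-(c / σ ^ 2)))
    (hΦ : ∀ ξ : T d L → ℝ, (∀ x, |Φ ξ x| ≤ 3 / σ) ∧ Core.FlatE σ η (1 / (L : ℝ) ^ 2) E (Φ ξ)) :
    |E| ≤ 8 * σ + 1 / (L : ℝ) ^ 2 := by
  set Pr := Measure.pi fun _ : T d L => gaussianReal 0 1 with hPr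
  obtain ⟨hgi, hg1⟩ := gauss_abs
  have hint0 : ∀ x : T d L, Integrable (fun ξ : T d L → ℝ => |ξ x|) Pr := fun x =>
    (measurePreserving_eval (fun _ : T d L => gaussianReal 0 1) x).integrable_comp_of_integrable hgi
  have hint1 : ∀ x : T d L, ∫ ξ, |ξ x| ∂Pr ≤ 1 := by
    intro x
    have hmp := measurePreserving_eval (fun _ : T d L => gaussianReal 0 1) x
    have h := integral_map (μ := Pr) (φ := Function.eval x) hmp.measurable.aemeasurable
      (f := fun t : ℝ => |t|) (by fun_prop)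
    rw [hmp.map_eq] at h
    exact (le_of_eq h.symm).trans hg1
  have hms : ∀ x : T d L, MeasurableSet {ξ : T d L → ℝ | Φ ξ x ≠ ξ x} := by
    intro x
    exact (measurableSet_eq_fun ((measurable_pi_apply x).comp hΦm) (measurable_pi_apply x)).compl
  have hexp : 3 / σ * Real.exp (-(c / σ ^ 2)) ≤ 3 := by
    have h1 : Real.exp (-(c / σ ^ 2)) ≤ σ ^ 2 / c := by
      rw [Real.exp_neg, inv_le_comm₀ (Real.exp_pos _) (by positivity), inv_div]
      have := Real.add_one_le_exp (c / σ ^ 2)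
      linarith
    calc 3 / σ * Real.exp (-(c / σ ^ 2)) ≤ 3 / σ * (σ ^ 2 / c) :=
          mul_le_mul_of_nonneg_left h1 (by positivity)
      _ = 3 * (σ / c) := by field_simp
      _ ≤ 3 * 1 := by
          refine mul_le_mul_of_nonneg_left ?_ (by norm_num)
          rw [div_le_one hc]; exact hσc
      _ = 3 := by ring
  have hpt : ∀ (ξ : T d L → ℝ) (x : T d L), |Φ ξ x| ≤ |ξ x| +
      {ξ : T d L → ℝ | Φ ξ x ≠ ξ x}.indicator (fun _ => 3 / σ) ξ := by
    intro ξ x
    by_cases h : Φ ξ x = ξ x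
    · have : ξ ∉ {ξ : T d L → ℝ | Φ ξ x ≠ ξ x} := fun hn => hn h
      rw [Set.indicator_of_notMem this, h, add_zero]
    · have : ξ ∈ {ξ : T d L → ℝ | Φ ξ x ≠ ξ x} := h
      rw [Set.indicator_of_mem this]
      have h2 := (hΦ ξ).1 x
      have h3 := abs_nonneg (ξ x)
      linarith
  have hind : ∀ x : T d L, Integrable (fun ξ : T d L → ℝ =>
      {ξ : T d L → ℝ | Φ ξ x ≠ ξ x}.indicator (fun _ => 3 / σ) ξ) Pr := fun x =>
    (integrable_const _).indicator (hms x)
  have hΦi : ∀ x : T d L, Integrable (fun ξ : T d L → ℝ => |Φ ξ x|) Pr := by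
    intro x
    refine ((hint0 x).add (hind x)).mono' ?_ (Filter.Eventually.of_forall fun ξ => ?_)
    · exact ((measurable_pi_apply x).comp hΦm).abs.aestronglyMeasurable
    · rw [Real.norm_eq_abs, abs_abs]
      exact hpt ξ x
  have hΦ4 : ∀ x : T d L, ∫ ξ, |Φ ξ x| ∂Pr ≤ 4 := by
    intro x
    calc ∫ ξ, |Φ ξ x| ∂Pr ≤ ∫ ξ, (|ξ x| +
          {ξ : T d L → ℝ | Φ ξ x ≠ ξ x}.indicator (fun _ => 3 / σ) ξ) ∂Pr :=
          integral_mono (hΦi x) ((hint0 x).add (hind x)) fun ξ => hpt ξ x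
      _ = ∫ ξ, |ξ x| ∂Pr + 3 / σ * Pr.real {ξ : T d L → ℝ | Φ ξ x ≠ ξ x} := by
          rw [integral_add (hint0 x) (hind x), integral_indicator_const _ (hms x), smul_eq_mul]
          ring
      _ ≤ 1 + 3 := by
          refine add_le_add (hint1 x) (le_trans ?_ hexp)
          exact mul_le_mul_of_nonneg_left (hP x) (by positivity)
      _ = 4 := by norm_num
  -- a configuration with a small average
  set N : ℝ := (Fintype.card (T d L) : ℝ) with hN
  have hN0 : 0 < N := by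
    rw [hN]
    exact_mod_cast Fintype.card_pos
  obtain ⟨ξ, hξ⟩ := exists_le_integral (μ := Pr) (f := fun ξ : T d L → ℝ => ∑ x, |Φ ξ x|)
    (integrable_finsetSum _ fun x _ => hΦi x)
  rw [integral_finsetSum _ fun x _ => hΦi x] at hξ
  have hξ4 : ∑ x, |Φ ξ x| ≤ 4 * N := by
    refine hξ.trans ((Finset.sum_le_sum fun x _ => hΦ4 x).trans (le_of_eq ?_))
    rw [Finset.sum_const, nsmul_eq_mul, Finset.card_univ]
    ring
  obtain ⟨E0, ψ, hE0, hψ, heq, -⟩ := (hΦ ξ).2
  have hψ2 : ∀ x, ψ x ≤ 2 := fun x => by have := (hψ x).2; linarith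
  have hsum : E0 * ∑ x, ψ x = σ * ∑ x, Φ ξ x * ψ x := by
    rw [Finset.mul_sum, ← Finset.sum_congr rfl fun x _ => heq x]
    unfold Hop
    rw [Finset.sum_add_distrib, Finset.sum_comm]
    have h0 : ∑ i : Fin d, ∑ x : T d L,
        (2 * ψ x - ψ (x + Pi.single i 1) - ψ (x - Pi.single i 1)) = 0 := by
      refine Finset.sum_eq_zero fun i _ => ?_
      rw [Finset.sum_sub_distrib, Finset.sum_sub_distrib, Green.sum_shift ψ (Pi.single i 1)]
      have h1 : ∑ x : T d L, ψ (x - Pi.single i 1) = ∑ x : T d L, ψ x := by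
        have := Green.sum_shift (fun x : T d L => ψ (x - Pi.single i 1)) (Pi.single i 1)
        simp only [add_sub_cancel_right] at this
        exact this.symm
      rw [h1, ← Finset.mul_sum]
      ring
    rw [h0, zero_add, Finset.mul_sum]
    exact Finset.sum_congr rfl fun x _ => by ring
  have hψs : N ≤ ∑ x, ψ x := by
    have h1 : N = ∑ _x : T d L, (1 : ℝ) := by
      rw [Finset.sum_const, nsmul_eq_mul, Finset.card_univ, mul_one]
    rw [h1]
    exact Finset.sum_le_sum fun x _ => (hψ x).1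
  have hE8 : |E0| ≤ 8 * σ := by
    have h1 : |E0| * N ≤ 8 * σ * N := by
      calc |E0| * N ≤ |E0| * ∑ x, ψ x := mul_le_mul_of_nonneg_left hψs (abs_nonneg _)
        _ = |E0 * ∑ x, ψ x| := by
            rw [abs_mul, abs_of_pos (lt_of_lt_of_le hN0 hψs)]
        _ = σ * |∑ x, Φ ξ x * ψ x| := by rw [hsum, abs_mul, abs_of_pos hσ]
        _ ≤ σ * ∑ x, |Φ ξ x| * 2 := by
            refine mul_le_mul_of_nonneg_left ?_ hσ.le
            refine (Finset.abs_sum_le_sum_abs _ _).trans (Finset.sum_le_sum fun x _ => ?_)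
            rw [abs_mul]
            refine mul_le_mul_of_nonneg_left ?_ (abs_nonneg _)
            rw [abs_of_nonneg (by linarith [(hψ x).1])]
            exact hψ2 x
        _ = σ * (2 * ∑ x, |Φ ξ x|) := by rw [← Finset.sum_mul]; ring
        _ ≤ σ * (2 * (4 * N)) := by gcongr
        _ = 8 * σ * N := by ring
    exact le_of_mul_le_mul_right h1 hN0
  calc |E| = |E0 - (E0 - E)| := by ring_nf
    _ ≤ |E0| + |E0 - E| := abs_sub _ _
    _ ≤ _ := add_le_add hE8 hE0

end Pool.Agent.U874.And
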