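import Pool.Agent.U874.And.Walk
import Pool.Agent.H4R2.AE.Exist

/-! # Anderson model with a flat ground state on the lattice: spectral measures near the bottom -/

set_option autoImplicit false

open Filter Topology
open scoped InnerProductSpace ENNReal

namespace Pool.Agent.U874.And

open Pool.Agent.H4R2.AE

section abstract_part

variable {X : Type*} [NormedAddCommGroup X] [InnerProductSpace ℂ X] [CompleteSpace X]

/-- a vector of an invariant subspace on which `A` is bounded below, tested against `v` -/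
theorem sub_bound (A : X →L[ℂ] X) (hA : ∀ f g, ⟪A f, g⟫_ℂ = ⟪f, A g⟫_ℂ) (K : Submodule ℂ X)
    [K.HasOrthogonalProjection] (hK : ∀ g ∈ K, A g ∈ K) (c : ℝ) (hc : 0 ≤ c)
    (hlow : ∀ g ∈ K, c * ‖g‖ ≤ ‖A g‖) (v : X) (n : ℕ) (f : X) (hf : f ∈ K) :
    c ^ n * ‖⟪v, f⟫_ℂ‖ ≤ ‖(A^[n]) v‖ * ‖f‖ := by
  -- the projection commutes with `A`
  have hcomm : ∀ w : X, K.starProjection (A w) = A (K.starProjection w) := by
    intro w
    refine (Submodule.eq_starProjection_of_mem_of_inner_eq_zero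
      (hK _ (Submodule.starProjection_apply_mem K w)) ?_)
    intro g hg
    rw [← map_sub, hA]
    exact Submodule.starProjection_inner_eq_zero w (A g) (hK g hg)
  have hit : ∀ n : ℕ, K.starProjection ((A^[n]) v) = (A^[n]) (K.starProjection v) := by
    intro n
    induction n with
    | zero => rfl
    | succ n ih => rw [Function.iterate_succ_apply', hcomm, ih, Function.iterate_succ_apply']
  have hmem : ∀ n : ℕ, (A^[n]) (K.starProjection v) ∈ K := by
    intro n
    rw [← hit]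
    exact Submodule.starProjection_apply_mem K _
  have hpow : ∀ n : ℕ, c ^ n * ‖K.starProjection v‖ ≤ ‖(A^[n]) (K.starProjection v)‖ := by
    intro n
    induction n with
    | zero => simp
    | succ n ih =>
      rw [Function.iterate_succ_apply']
      calc c ^ (n + 1) * ‖K.starProjection v‖ = c * (c ^ n * ‖K.starProjection v‖) := by ring
        _ ≤ c * ‖(A^[n]) (K.starProjection v)‖ := mul_le_mul_of_nonneg_left ih hc
        _ ≤ _ := hlow _ (hmem n)
  have hin : ⟪v, f⟫_ℂ = ⟪K.starProjection v, f⟫_ℂ := by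
    have h1 := Submodule.starProjection_inner_eq_zero v f hf
    rw [inner_sub_left, sub_eq_zero] at h1
    exact h1
  calc c ^ n * ‖⟪v, f⟫_ℂ‖ ≤ c ^ n * (‖K.starProjection v‖ * ‖f‖) := by
        rw [hin]
        exact mul_le_mul_of_nonneg_left (norm_inner_le_norm _ _) (by positivity)
    _ = c ^ n * ‖K.starProjection v‖ * ‖f‖ := by ring
    _ ≤ ‖(A^[n]) (K.starProjection v)‖ * ‖f‖ :=
        mul_le_mul_of_nonneg_right (hpow n) (norm_nonneg _)
    _ ≤ _ := by
        rw [← hit]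
        refine mul_le_mul_of_nonneg_right ?_ (norm_nonneg _)
        exact Submodule.norm_starProjection_apply_le K _

end abstract_part

/-- unit vectors -/
noncomputable def ee {d : ℕ} (x : Z d) : L2 d := lp.single 2 x (1 : ℂ)

theorem ee_apply {d : ℕ} (x y : Z d) : (ee x : L2 d) y = if y = x then 1 else 0 := by
  unfold ee
  rw [lp.single_apply]
  by_cases h : y = x
  · subst h; simp
  · rw [Pi.single_eq_of_ne h, if_neg h]

theorem inner_ee {d : ℕ} (x : Z d) (w : L2 d) : inner ℂ (ee x) w = w x := by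
  unfold ee
  rw [lp.inner_single_left]
  simp

theorem inner_ee' {d : ℕ} (x : Z d) (w : L2 d) : inner ℂ w (ee x) = (starRingEnd ℂ) (w x) := by
  rw [← inner_conj_symm, inner_ee]

variable {d : ℕ} {lam : ℝ} {V : Z d → ℝ} {H : L2 d →L[ℂ] L2 d}

theorem H_ee (hH : IsAnderson lam V H) (x y : Z d) : (H (ee x)) y = (H (ee y)) x := by
  rw [hH, hH]
  simp only [ee_apply]
  have h1 : ∀ i : Fin d, (y + Pi.single i 1 = x) ↔ (x - Pi.single i 1 = y) := fun i =>
    ⟨fun h => by rw [← h]; simp, fun h => by rw [← h]; simp⟩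
  have h2 : ∀ i : Fin d, (y - Pi.single i 1 = x) ↔ (x + Pi.single i 1 = y) := fun i =>
    ⟨fun h => by rw [← h]; simp, fun h => by rw [← h]; simp⟩
  simp only [h1, h2]
  by_cases hxy : y = x
  · subst hxy
    congr 1
    refine Finset.sum_congr rfl fun i _ => ?_
    ring
  · rw [if_neg hxy, if_neg (fun h => hxy h.symm)]
    congr 1
    · refine Finset.sum_congr rfl fun i _ => ?_
      ring
    · simp

theorem H_ee_conj (hH : IsAnderson lam V H) (x y : Z d) :
    (starRingEnd ℂ) ((H (ee x)) y) = (H (ee x)) y := by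
  rw [hH]
  simp only [ee_apply]
  rw [map_add, map_sum, map_mul, Complex.conj_ofReal]
  congr 1
  · refine Finset.sum_congr rfl fun i _ => ?_
    rw [map_sub, map_sub, map_mul]
    simp only [apply_ite (starRingEnd ℂ), map_one, map_zero, map_ofNat]
  · congr 1
    simp only [apply_ite (starRingEnd ℂ), map_one, map_zero]

theorem H_sa (hH : IsAnderson lam V H) : IsSelfAdjoint H := by
  rw [ContinuousLinearMap.isSelfAdjoint_iff']
  apply lp.ext_continuousLinearMap (by norm_num)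
  intro i
  ext
  rename_i j
  simp only [ContinuousLinearMap.comp_apply, lp.singleContinuousLinearMap_apply]
  change (ContinuousLinearMap.adjoint H (ee i)) j = (H (ee i)) j
  rw [← inner_ee j, ContinuousLinearMap.adjoint_inner_right, inner_ee', H_ee hH i j]
  exact H_ee_conj hH j i

theorem H_symm (hH : IsAnderson lam V H) (f g : L2 d) : ⟪H f, g⟫_ℂ = ⟪f, H g⟫_ℂ :=
  (ContinuousLinearMap.isSelfAdjoint_iff_isSymmetric.1 (H_sa hH)) f g

/-- `1 - (H - E + κ)/b` -/
noncomputable def AA (b κ E : ℝ) (H : L2 d →L[ℂ] L2 d) : L2 d →L[ℂ] L2 d :=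
  ContinuousLinearMap.id ℂ _ -
    ((1 / b : ℝ) : ℂ) • (H - ((E - κ : ℝ) : ℂ) • ContinuousLinearMap.id ℂ _)

lemma AA_apply (b κ E : ℝ) (H : L2 d →L[ℂ] L2 d) (f : L2 d) :
    AA b κ E H f = f - ((1 / b : ℝ) : ℂ) • (H f - ((E - κ : ℝ) : ℂ) • f) := rfl

lemma AA_symm (b κ E : ℝ) (hH : IsAnderson lam V H) (f g : L2 d) :
    ⟪AA b κ E H f, g⟫_ℂ = ⟪f, AA b κ E H g⟫_ℂ := by
  rw [AA_apply, AA_apply, inner_sub_left, inner_sub_right, inner_smul_left, inner_smul_right,
    inner_sub_left, inner_sub_right, inner_smul_left, inner_smul_right, Complex.conj_ofReal,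
    Complex.conj_ofReal, H_symm hH]

/-- ground state transform -/
lemma hop_mul (lam E : ℝ) (V ψ g : Z d → ℝ) (h1 : ∀ x, 1 ≤ ψ x)
    (h : ∀ x, HopZ lam V ψ x = E * ψ x) (x : Z d) :
    HopZ lam V (fun y => ψ y * g y) x - E * (ψ x * g x) = LapZ ψ g x / ψ x := by
  have hx : ψ x ≠ 0 := by have := h1 x; positivity
  rw [eq_div_iff hx]
  have h2 : E * (ψ x * g x) * ψ x = HopZ lam V ψ x * (ψ x * g x) := by rw [h x]; ring
  rw [sub_mul, h2]
  unfold HopZ LapZ
  rw [add_mul, add_mul, Finset.sum_mul, Finset.sum_mul]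
  have h3 : ∀ A B c : ℝ, A + lam * V x * (ψ x * g x) * ψ x -
      (B + lam * V x * ψ x * (ψ x * g x)) = A - B := fun A B c => by ring
  rw [h3 _ _ 0, ← Finset.sum_sub_distrib]
  exact Finset.sum_congr rfl fun i _ => by ring

lemma AA_step (b κ E : ℝ) (hH : IsAnderson lam V H) (ψ g : Z d → ℝ) (h1 : ∀ x, 1 ≤ ψ x)
    (h : ∀ x, HopZ lam V ψ x = E * ψ x) (f : L2 d) (hf : ∀ y, f y = ((ψ y * g y : ℝ) : ℂ))
    (y : Z d) : (AA b κ E H f) y = ((ψ y * Pz b κ ψ g y : ℝ) : ℂ) := by
  have e1 : (AA b κ E H f) y = f y - ((1 / b : ℝ) : ℂ) * ((H f) y - ((E - κ : ℝ) : ℂ) * f y) := by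
    rw [AA_apply]; rfl
  have e2 : (H f) y = ((HopZ lam V (fun y => ψ y * g y) y : ℝ) : ℂ) := by
    rw [hH, hf y]
    simp only [hf]
    unfold HopZ
    push_cast
    ring
  have hx : ψ y ≠ 0 := by have := h1 y; positivity
  have e3 := hop_mul lam E V ψ g h1 h y
  have e4 : HopZ lam V (fun y => ψ y * g y) y = E * (ψ y * g y) + LapZ ψ g y / ψ y := by linarith
  rw [e1, e2, hf y, e4]
  unfold Pz
  have e5 : ψ y * (g y - 1 / b * (LapZ ψ g y / ψ y ^ 2 + κ * g y)) = ψ y * g y -
      1 / b * (E * (ψ y * g y) + LapZ ψ g y / ψ y - (E - κ) * (ψ y * g y)) := by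
    field_simp
    ring
  rw [e5]
  push_cast
  ring

lemma AA_iter (b κ E : ℝ) (hH : IsAnderson lam V H) (ψ : Z d → ℝ) (h1 : ∀ x, 1 ≤ ψ x)
    (h : ∀ x, HopZ lam V ψ x = E * ψ x) (x : Z d) (n : ℕ) :
    ∀ y, (((AA b κ E H)^[n]) (ee x)) y = ((ψ y * gz b κ ψ x n y : ℝ) : ℂ) := by
  induction n with
  | zero =>
    intro y
    unfold gz
    simp only [Function.iterate_zero, id_eq]
    rw [ee_apply]
    by_cases hy : y = x
    · subst hy
      have hx : ψ y ≠ 0 := by have := h1 y; positivity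
      rw [if_pos rfl, Pi.single_eq_same, mul_inv_cancel₀ hx]; simp
    · rw [if_neg hy, Pi.single_eq_of_ne hy]; simp
  | succ n ih =>
    intro y
    rw [Function.iterate_succ_apply', gz_succ]
    exact AA_step b κ E hH ψ _ h1 h _ ih y

lemma norm_sq_tsum (f : L2 d) : ‖f‖ ^ 2 = ∑' y, ‖f y‖ ^ 2 := by
  have h := lp.norm_rpow_eq_tsum (p := 2) (by norm_num) f
  simpa using h

end Pool.Agent.U874.And
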