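import Pool.Agent.U874.And.Loc

/-! # Anderson model with a flat ground state on the lattice: the local spectral bound -/

set_option autoImplicit false

open Filter Topology
open scoped InnerProductSpace ENNReal

namespace Pool.Agent.U874.And

open Pool.Agent.H4R2.AE

variable {d : ℕ}

lemma one_sub_ge_exp (x : ℝ) (h0 : 0 ≤ x) (h1 : x ≤ 1 / 2) : Real.exp (-(2 * x)) ≤ 1 - x := by
  have hy : 0 < 1 - x := by linarith
  have h2 := Real.one_sub_inv_le_log_of_pos hy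
  have h3 : -(2 * x) ≤ 1 - (1 - x)⁻¹ := by
    have h4 : (1 - x)⁻¹ ≤ 1 + 2 * x := by
      rw [inv_le_comm₀ hy (by linarith), inv_eq_one_div, div_le_iff₀ (by linarith)]
      nlinarith
    linarith
  calc Real.exp (-(2 * x)) ≤ Real.exp (Real.log (1 - x)) := Real.exp_le_exp.2 (h3.trans h2)
    _ = 1 - x := Real.exp_log hy

lemma AA_low (b κ E s : ℝ) (hb : 0 < b) (H : L2 d →L[ℂ] L2 d) (g : L2 d)
    (hg : (⟪g, H g⟫_ℂ).re ≤ (E + s) * ‖g‖ ^ 2) :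
    (1 - (s + κ) / b) * ‖g‖ ≤ ‖AA b κ E H g‖ := by
  rcases eq_or_ne g 0 with rfl | hne
  · simp
  have hn : 0 < ‖g‖ := norm_pos_iff.2 hne
  have h1 : (⟪g, AA b κ E H g⟫_ℂ).re = ‖g‖ ^ 2 - 1 / b * ((⟪g, H g⟫_ℂ).re - (E - κ) * ‖g‖ ^ 2) := by
    have hself : ⟪g, g⟫_ℂ = ((‖g‖ ^ 2 : ℝ) : ℂ) := by
      rw [inner_self_eq_norm_sq_to_K]; push_cast; rfl
    rw [AA_apply, inner_sub_right, inner_smul_right, inner_sub_right, inner_smul_right, hself]
    rw [Complex.sub_re, Complex.re_ofReal_mul, Complex.sub_re, Complex.re_ofReal_mul,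
      Complex.ofReal_re]
  have h2 : (⟪g, AA b κ E H g⟫_ℂ).re ≤ ‖g‖ * ‖AA b κ E H g‖ :=
    (Complex.re_le_norm _).trans (norm_inner_le_norm _ _)
  have h3 : (1 - (s + κ) / b) * ‖g‖ ^ 2 ≤ ‖g‖ * ‖AA b κ E H g‖ := by
    refine le_trans ?_ h2
    rw [h1]
    have h4 : 1 / b * ((⟪g, H g⟫_ℂ).re - (E - κ) * ‖g‖ ^ 2) ≤ 1 / b * ((s + κ) * ‖g‖ ^ 2) := by
      refine mul_le_mul_of_nonneg_left ?_ (by positivity)
      linarith
    have h5 : (1 - (s + κ) / b) * ‖g‖ ^ 2 = ‖g‖ ^ 2 - 1 / b * ((s + κ) * ‖g‖ ^ 2) := by ring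
    rw [h5]
    linarith
  have h6 : ‖g‖ * ((1 - (s + κ) / b) * ‖g‖) ≤ ‖g‖ * ‖AA b κ E H g‖ := by
    calc ‖g‖ * ((1 - (s + κ) / b) * ‖g‖) = (1 - (s + κ) / b) * ‖g‖ ^ 2 := by ring
      _ ≤ _ := h3
  exact le_of_mul_le_mul_left h6 hn

/-- **local spectral bound** -/
theorem loc (d : ℕ) (hd : 3 ≤ d) : ∃ C : ℝ, 1 ≤ C ∧ ∀ (lam E : ℝ) (V ψ : Z d → ℝ),
    (∀ x, 1 ≤ ψ x) → (∀ x, ψ x ≤ 2) → (∀ x, HopZ lam V ψ x = E * ψ x) →
    ∀ H : L2 d →L[ℂ] L2 d, IsAnderson lam V H → ∀ s : ℝ, 0 < s → ∀ M : Submodule ℂ (L2 d),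
      (∀ f ∈ M, H f ∈ M) → (∀ f ∈ M, (⟪f, H f⟫_ℂ).re ≤ (E + s) * ‖f‖ ^ 2) →
      ∀ f ∈ M, ∀ x, ‖f x‖ ^ 2 ≤ C * s ^ ((d : ℝ) / 2) * ‖f‖ ^ 2 := by
  obtain ⟨C0, hC0, hwalk⟩ := walk d hd (2 * (4 * (d : ℝ) + 1)) le_rfl
  set b : ℝ := 2 * (4 * (d : ℝ) + 1) with hb
  have hd3 : (3 : ℝ) ≤ d := by exact_mod_cast hd
  have hb26 : 26 ≤ b := by rw [hb]; linarith
  have hb0 : 0 < b := by linarith
  refine ⟨max 1 (Real.exp 16 * C0), le_max_left _ _, ?_⟩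
  intro lam E V ψ h1 h2 h H hH s hs M hM hform f hf x
  have hfx : ‖f x‖ ≤ ‖f‖ := lp.norm_apply_le_norm (by norm_num) f x
  by_cases hsb : b / 4 ≤ s
  · have hs1 : 1 ≤ s := by linarith
    have h3 : 1 ≤ s ^ ((d : ℝ) / 2) := Real.one_le_rpow hs1 (by positivity)
    have h4 : (1 : ℝ) ≤ max 1 (Real.exp 16 * C0) := le_max_left _ _
    have h5 : (1 : ℝ) ≤ max 1 (Real.exp 16 * C0) * s ^ ((d : ℝ) / 2) := by nlinarith
    calc ‖f x‖ ^ 2 ≤ 1 * ‖f‖ ^ 2 := by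
          rw [one_mul]; exact pow_le_pow_left₀ (norm_nonneg _) hfx 2
      _ ≤ _ := mul_le_mul_of_nonneg_right h5 (by positivity)
  push Not at hsb
  -- the closure
  set K := M.topologicalClosure with hKdef
  have hKc : IsClosed (K : Set (L2 d)) := M.isClosed_topologicalClosure
  haveI : CompleteSpace K := hKc.completeSpace_coe
  have hMK : M ≤ K := M.le_topologicalClosure
  set n : ℕ := ⌈b / s⌉₊ with hn
  set L : ℕ := 2 * (n + 3) + 1 + ⌈1 / s⌉₊ with hL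
  set κ : ℝ := 1 / (L : ℝ) ^ 2 with hκ
  have hLr : 1 / s ≤ (L : ℝ) := by
    have := Nat.le_ceil (1 / s)
    rw [hL]; push_cast
    have : (0 : ℝ) ≤ n := Nat.cast_nonneg n
    linarith
  have hL1 : (1 : ℝ) ≤ L := by
    have : 1 ≤ L := by omega
    exact_mod_cast this
  have hκs : κ ≤ s := by
    rw [hκ, div_le_iff₀ (by positivity)]
    rw [div_le_iff₀ hs] at hLr
    nlinarith
  have hκ0 : 0 ≤ κ := by positivity
  have hnlow : b / s ≤ n := Nat.le_ceil _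
  have hbs : 1 ≤ b / s := by rw [le_div_iff₀ hs]; linarith
  have hnup : (n : ℝ) ≤ 2 * (b / s) := by
    have := Nat.ceil_lt_add_one (a := b / s) (by positivity)
    linarith
  set c : ℝ := 1 - 2 * s / b with hc
  have hxb : 2 * s / b ≤ 1 / 2 := by rw [div_le_iff₀ hb0]; linarith
  have hc0 : 0 ≤ c := by linarith
  have hcn : Real.exp (-8) ≤ c ^ n := by
    have h3 := one_sub_ge_exp (2 * s / b) (by positivity) hxb
    calc Real.exp (-8) ≤ Real.exp (-(2 * (2 * s / b)) * n) := by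
          apply Real.exp_le_exp.2
          have h4 : 2 * (2 * s / b) * n ≤ 2 * (2 * s / b) * (2 * (b / s)) :=
            mul_le_mul_of_nonneg_left hnup (by positivity)
          have h5 : 2 * (2 * s / b) * (2 * (b / s)) = 8 := by field_simp; ring
          linarith
      _ = Real.exp (-(2 * (2 * s / b))) ^ n := by rw [← Real.exp_nat_mul]; ring_nf
      _ ≤ c ^ n := pow_le_pow_left₀ (Real.exp_pos _).le h3 n
  -- properties of the closure
  have hKH : ∀ g ∈ K, H g ∈ K := by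
    intro g hg
    have h3 : Set.MapsTo H (M : Set (L2 d)) (M : Set (L2 d)) := fun g hg => hM g hg
    exact h3.closure H.continuous hg
  have hKform : ∀ g ∈ K, (⟪g, H g⟫_ℂ).re ≤ (E + s) * ‖g‖ ^ 2 := by
    intro g hg
    have hcl : IsClosed {g : L2 d | (⟪g, H g⟫_ℂ).re ≤ (E + s) * ‖g‖ ^ 2} := by
      refine isClosed_le ?_ ?_
      · exact Complex.continuous_re.comp (continuous_id.inner H.continuous)
      · fun_prop
    exact closure_minimal (fun g hg => hform g hg) hcl hg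
  have hKA : ∀ g ∈ K, AA b κ E H g ∈ K := by
    intro g hg
    rw [AA_apply]
    exact K.sub_mem hg (K.smul_mem _ (K.sub_mem (hKH g hg) (K.smul_mem _ hg)))
  have hlow : ∀ g ∈ K, c * ‖g‖ ≤ ‖AA b κ E H g‖ := by
    intro g hg
    refine le_trans (mul_le_mul_of_nonneg_right ?_ (norm_nonneg _))
      (AA_low b κ E s hb0 H g (hKform g hg))
    rw [hc]
    have : (s + κ) / b ≤ 2 * s / b := by gcongr; linarith
    linarith
  have hmain := sub_bound (AA b κ E H) (AA_symm b κ E hH) K hKA c hc0 hlow (ee x) n f (hMK hf)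
  rw [inner_ee] at hmain
  have hA : ‖((AA b κ E H)^[n]) (ee x)‖ ^ 2 * (n : ℝ) ^ ((d : ℝ) / 2) ≤ C0 := by
    rw [norm_sq_tsum]
    have h3 := hwalk ψ x n L h1 h2 (by omega)
    refine le_trans (le_of_eq ?_) h3
    congr 1
    refine tsum_congr fun y => ?_
    rw [AA_iter b κ E hH ψ h1 h x n y, Complex.norm_real, Real.norm_eq_abs, sq_abs, mul_pow]
  have hn0 : (0 : ℝ) < n := by linarith
  have hnd : s ^ (-((d : ℝ) / 2)) ≤ (n : ℝ) ^ ((d : ℝ) / 2) := by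
    have h3 : 1 / s ≤ (n : ℝ) := by
      refine le_trans ?_ hnlow
      gcongr
      linarith
    calc s ^ (-((d : ℝ) / 2)) = (1 / s) ^ ((d : ℝ) / 2) := by
          rw [one_div, Real.inv_rpow hs.le, Real.rpow_neg hs.le]
      _ ≤ _ := Real.rpow_le_rpow (by positivity) h3 (by positivity)
  have hA2 : ‖((AA b κ E H)^[n]) (ee x)‖ ^ 2 ≤ C0 * s ^ ((d : ℝ) / 2) := by
    have h3 : ‖((AA b κ E H)^[n]) (ee x)‖ ^ 2 * s ^ (-((d : ℝ) / 2)) ≤ C0 :=
      (mul_le_mul_of_nonneg_left hnd (by positivity)).trans hA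
    rw [Real.rpow_neg hs.le, ← div_eq_mul_inv, div_le_iff₀ (Real.rpow_pos_of_pos hs _)] at h3
    exact h3
  have hfin : Real.exp (-8) * ‖f x‖ ≤ ‖((AA b κ E H)^[n]) (ee x)‖ * ‖f‖ :=
    (mul_le_mul_of_nonneg_right hcn (norm_nonneg _)).trans hmain
  have hsq : Real.exp (-16) * ‖f x‖ ^ 2 ≤ C0 * s ^ ((d : ℝ) / 2) * ‖f‖ ^ 2 := by
    have h3 : (Real.exp (-8) * ‖f x‖) ^ 2 ≤ (‖((AA b κ E H)^[n]) (ee x)‖ * ‖f‖) ^ 2 :=
      pow_le_pow_left₀ (by positivity) hfin 2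
    rw [mul_pow, mul_pow] at h3
    have e : Real.exp (-8) ^ 2 = Real.exp (-16) := by
      rw [← Real.exp_nat_mul]; norm_num
    rw [e] at h3
    exact h3.trans (mul_le_mul_of_nonneg_right hA2 (by positivity))
  have hE : ‖f x‖ ^ 2 ≤ Real.exp 16 * C0 * s ^ ((d : ℝ) / 2) * ‖f‖ ^ 2 := by
    have e : Real.exp 16 * Real.exp (-16) = 1 := by rw [← Real.exp_add]; norm_num
    calc ‖f x‖ ^ 2 = Real.exp 16 * (Real.exp (-16) * ‖f x‖ ^ 2) := by rw [← mul_assoc, e, one_mul]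
      _ ≤ Real.exp 16 * (C0 * s ^ ((d : ℝ) / 2) * ‖f‖ ^ 2) :=
          mul_le_mul_of_nonneg_left hsq (Real.exp_pos _).le
      _ = _ := by ring
  refine hE.trans ?_
  refine mul_le_mul_of_nonneg_right (mul_le_mul_of_nonneg_right (le_max_right _ _) ?_)
    (by positivity)
  exact (Real.rpow_pos_of_pos hs _).le

end Pool.Agent.U874.And
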