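import Pool.Agent.U874.And.Sharp

/-! # Anderson model, rare changes: a lower bound for the density of the changes, probability -/

set_option autoImplicit false

open MeasureTheory Filter Topology

namespace Pool.Agent.U874.And

/-- the deterministic contradiction: no flat state if the potential is low in one box and high in
another one -/
lemma no_flat {d : ℕ} (lam M E a b : ℝ) (hlam : 0 < lam) (hM : 1 ≤ M) (V ψ : Z d → ℝ)
    (hψ : ∀ x, 1 ≤ ψ x ∧ ψ x ≤ M) (h : ∀ x, HopZ lam V ψ x = E * ψ x) (R : ℕ) (hR : 1 ≤ R)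
    (z w : Z d) (hz : ∀ x ∈ box R z, V x ≤ a) (hw : ∀ x ∈ box R w, b ≤ V x) :
    lam * (b - a) * R ^ 2 ≤ 16 * d * M := by
  have h1 := upper lam M E a hlam.le hM V ψ hψ 1 (Or.inl rfl) h R hR z
    (fun x hx => by have := hz x hx; linarith)
  have h2 := upper lam M E b hlam.le hM V ψ hψ (-1) (Or.inr rfl) h R hR w
    (fun x hx => by have := hw x hx; linarith)
  have hRr : (1 : ℝ) ≤ R := by exact_mod_cast hR
  have h3 : lam * (b - a) ≤ 16 * d * M / R ^ 2 := by
    have e : (16 : ℝ) * d * M / R ^ 2 = 8 * d * M / R ^ 2 + 8 * d * M / R ^ 2 := by ring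
    rw [e]; linarith
  rwa [le_div_iff₀ (by positivity)] at h3

theorem sharp (d : ℕ) (hd : 1 ≤ d) (μ : Measure ℝ) [IsProbabilityMeasure μ] (a b : ℝ) (hab : a < b)
    (ha : 0 < μ.real (Set.Iic a)) (hb : 0 < μ.real (Set.Ici b)) (M : ℝ) (hM : 1 ≤ M) :
    ∃ C : ℝ, 0 < C ∧ ∀ lam : ℝ, 0 < lam → lam ≤ 1 → ∀ P : Measure (XX d), IsProbabilityMeasure P →
      P.map Prod.fst = Measure.infinitePi (fun _ : Z d => μ) →
      (∀ᵐ p ∂P, ∃ (E : ℝ) (ψ : Z d → ℝ), (∀ x, 1 ≤ ψ x ∧ ψ x ≤ M) ∧
        ∀ x, HopZ lam p.2 ψ x = E * ψ x) →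
      ∃ x, Real.exp (-(C / Real.sqrt lam ^ d)) ≤ P.real {p | p.2 x ≠ p.1 x} := by
  set m : ℝ := min (μ.real (Set.Iic a)) (μ.real (Set.Ici b)) with hm
  have hm0 : 0 < m := lt_min ha hb
  have hm1 : m ≤ 1 := (min_le_left _ _).trans measureReal_le_one
  set A0 : ℝ := Real.sqrt (16 * d * M / (b - a)) with hA0
  have hA00 : 0 ≤ A0 := Real.sqrt_nonneg _
  set K : ℝ := 2 * A0 + 5 with hK
  have hK0 : 0 < K := by positivity
  have hl0 : 0 ≤ Real.log (1 / m) := Real.log_nonneg (by rw [le_div_iff₀ hm0]; linarith)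
  refine ⟨K ^ d * (2 + 2 * Real.log (1 / m)), by positivity, ?_⟩
  intro lam hlam hlam1 P hPp hP hae
  by_contra hcon
  push Not at hcon
  set R : ℕ := ⌈A0 / Real.sqrt lam⌉₊ + 1 with hR
  have hs0 : 0 < Real.sqrt lam := Real.sqrt_pos.2 hlam
  have hs1 : Real.sqrt lam ≤ 1 := by
    rw [← Real.sqrt_one]; exact Real.sqrt_le_sqrt hlam1
  have hR1 : 1 ≤ R := by omega
  have hRlow : A0 / Real.sqrt lam + 1 ≤ R := by
    rw [hR]; push_cast
    have := Nat.le_ceil (A0 / Real.sqrt lam)
    linarith
  have hRup : (R : ℝ) ≤ A0 / Real.sqrt lam + 2 := by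
    rw [hR]; push_cast
    have := Nat.ceil_lt_add_one (a := A0 / Real.sqrt lam) (by positivity)
    linarith
  have hba : 0 < b - a := by linarith
  have hRsq : 16 * d * M < lam * (b - a) * (R : ℝ) ^ 2 := by
    have h1 : A0 / Real.sqrt lam < R := by linarith
    have h2 : (A0 / Real.sqrt lam) ^ 2 < (R : ℝ) ^ 2 := pow_lt_pow_left₀ h1 (by positivity) (by norm_num)
    rw [div_pow, Real.sq_sqrt hlam.le, hA0, Real.sq_sqrt (by positivity), div_div,
      div_lt_iff₀ (by positivity)] at h2
    linarith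
  set N : ℕ := (2 * R + 1) ^ d with hN
  have hNup : (N : ℝ) ≤ K ^ d / Real.sqrt lam ^ d := by
    rw [hN, ← div_pow]; push_cast
    refine pow_le_pow_left₀ (by positivity) ?_ d
    rw [le_div_iff₀ hs0]
    have h1 : (R : ℝ) * Real.sqrt lam ≤ A0 + 2 * Real.sqrt lam := by
      calc (R : ℝ) * Real.sqrt lam ≤ (A0 / Real.sqrt lam + 2) * Real.sqrt lam :=
            mul_le_mul_of_nonneg_right hRup hs0.le
        _ = A0 + 2 * Real.sqrt lam := by field_simp
    rw [hK]
    nlinarith
  have hN1 : (1 : ℝ) ≤ N := by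
    have : 1 ≤ N := Nat.one_le_pow _ _ (by omega)
    exact_mod_cast this
  -- the two boxes
  set z : Z d := 0 with hz
  set w : Z d := fun _ => 2 * (R : ℤ) + 1 with hw
  have hdisj : Disjoint (box R z) (box R w) := by
    rw [Finset.disjoint_left]
    intro x hx hx'
    rw [mem_box] at hx hx'
    have h1 := hx ⟨0, by omega⟩
    have h2 := hx' ⟨0, by omega⟩
    rw [abs_le] at h1 h2
    simp only [hz, hw, Pi.zero_apply] at h1 h2
    omega
  set B : Finset (Z d) := box R z ∪ box R w with hB
  have hBc : B.card = 2 * N := by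
    rw [hB, Finset.card_union_of_disjoint hdisj, card_box, card_box]; ring
  classical
  set t : Z d → Set ℝ := fun x => if x ∈ box R z then Set.Iic a else Set.Ici b with ht
  have htm : ∀ x, MeasurableSet (t x) := by
    intro x
    simp only [ht]
    split_ifs
    · exact measurableSet_Iic
    · exact measurableSet_Ici
  have htr : ∀ x, m ≤ μ.real (t x) := by
    intro x
    simp only [ht]
    split_ifs
    · exact min_le_left _ _
    · exact min_le_right _ _
  set A : Set (XX d) := Prod.fst ⁻¹' (Set.pi (B : Set (Z d)) t) with hA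
  have hpm : MeasurableSet (Set.pi (B : Set (Z d)) t) :=
    MeasurableSet.pi B.countable_toSet fun x _ => htm x
  have hPA : m ^ (2 * N) ≤ P.real A := by
    have h1 : P A = ∏ x ∈ B, μ (t x) := by
      rw [hA, ← Measure.map_apply measurable_fst hpm, hP, Measure.infinitePi_pi _ fun x _ => htm x]
    have h2 : P.real A = ∏ x ∈ B, μ.real (t x) := by
      rw [Measure.real, h1, ENNReal.toReal_prod]
      rfl
    rw [h2, ← hBc, ← Finset.prod_const]
    exact Finset.prod_le_prod (fun _ _ => hm0.le) fun x _ => htr x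
  set Bad : Set (XX d) := ⋃ x ∈ B, {p : XX d | p.2 x ≠ p.1 x} with hBad
  set ε : ℝ := Real.exp (-(K ^ d * (2 + 2 * Real.log (1 / m)) / Real.sqrt lam ^ d)) with hε
  have hPB : P.real Bad < 2 * N * ε := by
    have h1 : P.real Bad ≤ ∑ x ∈ B, P.real {p : XX d | p.2 x ≠ p.1 x} :=
      measureReal_biUnion_finset_le _ _
    refine h1.trans_lt ?_
    have h2 : ∑ x ∈ B, P.real {p : XX d | p.2 x ≠ p.1 x} < ∑ _x ∈ B, ε := by
      refine Finset.sum_lt_sum_of_nonempty ?_ fun x _ => hcon x
      rw [← Finset.card_pos, hBc]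
      have : 0 < N := by exact_mod_cast (by linarith : (0 : ℝ) < N)
      omega
    rw [Finset.sum_const, hBc, nsmul_eq_mul] at h2
    push_cast at h2
    exact h2
  have hAB : P.real A ≤ P.real Bad := by
    have h1 : A ≤ᵐ[P] Bad := by
      filter_upwards [hae] with p hp hpA
      obtain ⟨E, ψ, hψ, hE⟩ := hp
      by_contra hb'
      have hsame : ∀ x ∈ B, p.2 x = p.1 x := by
        intro x hx
        by_contra hne
        exact hb' (Set.mem_biUnion hx hne)
      have hval : ∀ x ∈ B, p.1 x ∈ t x := fun x hx => hpA x hx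
      have h2 := no_flat lam M E a b hlam hM p.2 ψ hψ hE R hR1 z w
        (fun x hx => by
          have hxB : x ∈ B := Finset.mem_union_left _ hx
          have := hval x hxB
          simp only [ht] at this
          rw [if_pos hx] at this
          rw [hsame x hxB]; exact this)
        (fun x hx => by
          have hxB : x ∈ B := Finset.mem_union_right _ hx
          have := hval x hxB
          simp only [ht] at this
          rw [if_neg (Finset.disjoint_right.1 hdisj hx)] at this
          rw [hsame x hxB]; exact this)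
      linarith
    rw [Measure.real, Measure.real]
    exact ENNReal.toReal_mono (measure_ne_top _ _) (measure_mono_ae h1)
  -- numbers
  have hfin : 2 * N * ε ≤ m ^ (2 * N) := by
    have h1 : (2 : ℝ) * N ≤ Real.exp (2 * N) := by
      have := Real.add_one_le_exp (2 * (N : ℝ))
      linarith
    have h2 : m ^ (2 * N) = Real.exp (-(2 * N * Real.log (1 / m))) := by
      rw [one_div, Real.log_inv, ← Real.rpow_natCast, Real.rpow_def_of_pos hm0]
      congr 1
      push_cast
      ring
    rw [h2, hε]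
    calc (2 : ℝ) * N * Real.exp (-(K ^ d * (2 + 2 * Real.log (1 / m)) / Real.sqrt lam ^ d)) ≤
          Real.exp (2 * N) * Real.exp (-(K ^ d * (2 + 2 * Real.log (1 / m)) / Real.sqrt lam ^ d)) :=
          mul_le_mul_of_nonneg_right h1 (Real.exp_pos _).le
      _ = Real.exp (2 * N - K ^ d * (2 + 2 * Real.log (1 / m)) / Real.sqrt lam ^ d) := by
          rw [← Real.exp_add]; congr 1
      _ ≤ _ := by
          apply Real.exp_le_exp.2
          have h3 : (2 + 2 * Real.log (1 / m)) * (N : ℝ) ≤
              (2 + 2 * Real.log (1 / m)) * (K ^ d / Real.sqrt lam ^ d) :=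
            mul_le_mul_of_nonneg_left hNup (by positivity)
          have h4 : K ^ d * (2 + 2 * Real.log (1 / m)) / Real.sqrt lam ^ d =
              (2 + 2 * Real.log (1 / m)) * (K ^ d / Real.sqrt lam ^ d) := by ring
          rw [h4]
          linarith
  linarith

end Pool.Agent.U874.And
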