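import Pool.Agent.U874.And.Cpt2
import Pool.Agent.U874.And.Sharp2
import Pool.Agent.U874.And.Bot2

/-! # Anderson model, rare changes: assembly -/

set_option autoImplicit false

open MeasureTheory Filter Topology
open scoped InnerProductSpace

namespace Pool.Agent.U874.And

open Pool.Agent.H4R2.AE

/-- extended ground state at the bottom `E` of the spectrum, with the spectral measures near the
bottom bounded as for the Laplace operator -/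
def Ext {d : ℕ} (C η lam E : ℝ) (V : Z d → ℝ) : Prop :=
  (∃ ψ : Z d → ℝ, (∀ x, 1 ≤ ψ x ∧ ψ x ≤ 1 + η) ∧ ∀ x, HopZ lam V ψ x = E * ψ x) ∧
  (∀ (Λ : Finset (Z d)) (s : ℝ) (k : ℕ), 0 ≤ s →
    (States 0 (0 : Z d → ℝ) Λ s k → States lam V Λ (E + (1 + η) ^ 2 * s) k) ∧
    (States lam V Λ (E + s) k → States 0 (0 : Z d → ℝ) Λ ((1 + η) ^ 2 * s) k)) ∧
  ∃ H : L2 d →L[ℂ] L2 d, IsAnderson lam V H ∧
    (∀ f : L2 d, E * ‖f‖ ^ 2 ≤ (⟪f, H f⟫_ℂ).re) ∧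
    (∀ ε : ℝ, 0 < ε → ∃ f : L2 d, f ≠ 0 ∧ (⟪f, H f⟫_ℂ).re ≤ (E + ε) * ‖f‖ ^ 2) ∧
    ∀ s : ℝ, 0 < s → ∀ M : Submodule ℂ (L2 d), (∀ f ∈ M, H f ∈ M) →
      (∀ f ∈ M, (⟪f, H f⟫_ℂ).re ≤ (E + s) * ‖f‖ ^ 2) →
      ∀ f ∈ M, ∀ x, ‖f x‖ ^ 2 ≤ C * s ^ ((d : ℝ) / 2) * ‖f‖ ^ 2

theorem main_up (d : ℕ) (hd : 5 ≤ d) : ∃ C : ℝ, 0 < C ∧ ∀ η : ℝ, 0 < η → η ≤ 1 →
    ∃ c : ℝ, 0 < c ∧ ∀ μ : Measure ℝ, IsProbabilityMeasure μ → μ (Set.Icc (-1) 1)ᶜ = 0 →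
      ∀ lam : ℝ, 0 < lam → lam ≤ c → ∃ E : ℝ, |E| ≤ lam ∧ ∃ P : Measure (XX d),
        IsProbabilityMeasure P ∧
        P.map Prod.fst = Measure.infinitePi (fun _ : Z d => μ) ∧
        (∀ a : Z d, P.map (sh a) = P) ∧
        P.real {p | p.2 0 ≠ p.1 0} ≤ Real.exp (-(c / Real.sqrt lam ^ d)) ∧
        ∀ᵐ p ∂P, (∀ x, |p.2 x - p.1 x| ≤ 2) ∧ Ext C η lam E p.2 := by
  obtain ⟨C, hC, hloc⟩ := loc d (by omega)
  refine ⟨C, by linarith, ?_⟩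
  intro η hη hη1
  obtain ⟨c, hc, hmodi⟩ := Core2.main_modi d hd η hη hη1
  refine ⟨c, hc, ?_⟩
  intro μ hμp hμ lam hlam hlamc
  obtain ⟨E, hE, P, hPp, h1, h2, h3, h4⟩ := cpt d μ hμ lam η
    (Real.exp (-c / Real.sqrt lam ^ d)) hη.le hη1 (fun L _ => hmodi μ lam hlam hlamc L)
  refine ⟨E, hE, P, hPp, h1, h2, ?_, ?_⟩
  · rw [neg_div] at h3; exact h3
  filter_upwards [h4] with p hp
  obtain ⟨hV, hVV, ψ, hψ, hψe⟩ := hp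
  have hψe' : ∀ x, HopZ lam p.2 ψ x = E * ψ x := by
    intro x
    have := abs_nonpos_iff.1 (hψe x)
    linarith
  have hψ' : ∀ x, 1 ≤ ψ x ∧ ψ x ≤ 1 + η := fun x => hψ x
  have hψ1 : ∀ x, 1 ≤ ψ x := fun x => (hψ' x).1
  have hψ2 : ∀ x, ψ x ≤ 2 := fun x => by have := (hψ' x).2; linarith
  have hb : ∀ x, |p.2 x| ≤ 3 := by
    intro x
    have h5 := abs_le.1 (hV x)
    have h6 := abs_le.1 (hVV x)
    rw [abs_le]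
    constructor <;> linarith
  obtain ⟨H, hH⟩ := Exist.exists_anderson d lam p.2 3 (by norm_num) hb
  refine ⟨hVV, ⟨ψ, hψ', hψe'⟩, ?_, H, hH, ?_, ?_, ?_⟩
  · intro Λ s k hs
    exact compare lam η E p.2 ψ hψ' hψe' Λ s hs k
  · exact form_low hH E ψ hψ1 hψe'
  · exact form_up hH E ψ hψ1 hψ2 hψe'
  · exact hloc lam E p.2 ψ hψ1 hψ2 hψe' H hH

end Pool.Agent.U874.And
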