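import Pool.Agent.U874.And.CptG
import Pool.Agent.U874.And.GauE
import Pool.Agent.U874.And.Bot2

/-! # Gaussian disorder, rare changes: assembly, in the convention `Δ + σ ξ`, top of the spectrum -/

set_option autoImplicit false

open MeasureTheory ProbabilityTheory Filter Topology
open scoped InnerProductSpace

namespace Pool.Agent.U874.And

open Pool.Agent.H4R2.AE

/-- `Δ + σ V`, `(Δ f)(x) = ∑_{|y - x| = 1} f(y)` -/
noncomputable def Adj {d : ℕ} (σ : ℝ) (V f : Z d → ℝ) (x : Z d) : ℝ :=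
  ∑ i : Fin d, (f (x + Pi.single i 1) + f (x - Pi.single i 1)) + σ * V x * f x

lemma adj_eq {d : ℕ} (σ : ℝ) (V f : Z d → ℝ) (x : Z d) :
    Adj σ V f x = 2 * d * f x - HopZ σ (fun y => -V y) f x := by
  unfold Adj HopZ
  have h : ∑ i : Fin d, (2 * f x - f (x + Pi.single i 1) - f (x - Pi.single i 1)) =
      2 * d * f x - ∑ i : Fin d, (f (x + Pi.single i 1) + f (x - Pi.single i 1)) := by
    have e : ∀ i : Fin d, 2 * f x - f (x + Pi.single i 1) - f (x - Pi.single i 1) =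
        2 * f x - (f (x + Pi.single i 1) + f (x - Pi.single i 1)) := fun i => by ring
    rw [Finset.sum_congr rfl fun i _ => e i, Finset.sum_sub_distrib, Finset.sum_const,
      Finset.card_univ, Fintype.card_fin, nsmul_eq_mul]
    ring
  rw [h]
  ring

/-- at least `k` eigenvalues that are at least `t` -/
def EigsT {d : ℕ} (σ : ℝ) (V : Z d → ℝ) (Λ : Finset (Z d)) (t : ℝ) (k : ℕ) : Prop :=
  ∃ W : Submodule ℝ (Z d → ℝ), Module.finrank ℝ W = k ∧ ∀ f ∈ W, (∀ x ∉ Λ, f x = 0) ∧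
    t * ∑ x ∈ Λ, f x ^ 2 ≤ ∑ x ∈ Λ, f x * Adj σ V f x

lemma eigsT_iff {d : ℕ} (σ : ℝ) (V : Z d → ℝ) (Λ : Finset (Z d)) (t : ℝ) (k : ℕ) :
    EigsT σ V Λ t k ↔ States σ (fun y => -V y) Λ (2 * d - t) k := by
  unfold EigsT States
  refine exists_congr fun W => and_congr_right fun _ => forall_congr' fun f =>
    imp_congr_right fun _ => and_congr_right fun _ => ?_
  have h : ∑ x ∈ Λ, f x * Adj σ V f x = 2 * d * ∑ x ∈ Λ, f x ^ 2 -
      ∑ x ∈ Λ, f x * HopZ σ (fun y => -V y) f x := by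
    rw [Finset.mul_sum, ← Finset.sum_sub_distrib]
    exact Finset.sum_congr rfl fun x _ => by rw [adj_eq]; ring
  rw [h]
  constructor <;> intro h2 <;> linarith

/-- `H = Δ + σ V` on `ℓ²(ℤ^d)` -/
def IsAdj {d : ℕ} (σ : ℝ) (V : Z d → ℝ) (H : L2 d →L[ℂ] L2 d) : Prop :=
  ∀ (f : L2 d) (x : Z d), (H f) x = ∑ i : Fin d, (f (x + Pi.single i 1) + f (x - Pi.single i 1)) +
    ((σ * V x : ℝ) : ℂ) * f x

/-- extended generalised eigenfunction at the top `E` of the spectrum -/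
def ExtT {d : ℕ} (C η σ E : ℝ) (V : Z d → ℝ) : Prop :=
  (∃ ψ : Z d → ℝ, (∀ x, 1 ≤ ψ x ∧ ψ x ≤ 1 + η) ∧ ∀ x, Adj σ V ψ x = E * ψ x) ∧
  (∀ (Λ : Finset (Z d)) (s : ℝ) (k : ℕ), 0 ≤ s →
    (EigsT 0 (0 : Z d → ℝ) Λ (2 * d - s) k → EigsT σ V Λ (E - (1 + η) ^ 2 * s) k) ∧
    (EigsT σ V Λ (E - s) k → EigsT 0 (0 : Z d → ℝ) Λ (2 * d - (1 + η) ^ 2 * s) k)) ∧
  ∃ H : L2 d →L[ℂ] L2 d, IsAdj σ V H ∧
    (∀ f : L2 d, (⟪f, H f⟫_ℂ).re ≤ E * ‖f‖ ^ 2) ∧
    (∀ ε : ℝ, 0 < ε → ∃ f : L2 d, f ≠ 0 ∧ (E - ε) * ‖f‖ ^ 2 ≤ (⟪f, H f⟫_ℂ).re) ∧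
    ∀ s : ℝ, 0 < s → ∀ M : Submodule ℂ (L2 d), (∀ f ∈ M, H f ∈ M) →
      (∀ f ∈ M, (E - s) * ‖f‖ ^ 2 ≤ (⟪f, H f⟫_ℂ).re) →
      ∀ f ∈ M, ∀ x, ‖f x‖ ^ 2 ≤ C * s ^ ((d : ℝ) / 2) * ‖f‖ ^ 2

/-- everything about the flat eigenfunction, given the equation -/
lemma ext_of_flat (d : ℕ) (hd : 3 ≤ d) : ∃ C : ℝ, 0 < C ∧ ∀ (η σ E B : ℝ) (V ψ : Z d → ℝ),
    0 < η → η ≤ 1 → 0 ≤ B → (∀ x, |V x| ≤ B) → (∀ x, 1 ≤ ψ x ∧ ψ x ≤ 1 + η) →
    (∀ x, HopZ σ (fun y => -V y) ψ x = E * ψ x) → ExtT C η σ (2 * d - E) V := by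
  obtain ⟨C, hC, hloc⟩ := loc d hd
  refine ⟨C, by linarith, ?_⟩
  intro η σ E B V ψ hη hη1 hB hV hψ hψe
  have hψ1 : ∀ x, 1 ≤ ψ x := fun x => (hψ x).1
  have hψ2 : ∀ x, ψ x ≤ 2 := fun x => by have := (hψ x).2; linarith
  obtain ⟨H, hH⟩ := Exist.exists_anderson d σ (fun y => -V y) B hB (fun x => by
    rw [abs_neg]; exact hV x)
  set G : L2 d →L[ℂ] L2 d := ((2 * d : ℝ) : ℂ) • ContinuousLinearMap.id ℂ _ - H with hG
  have hGa : ∀ f : L2 d, G f = ((2 * d : ℝ) : ℂ) • f - H f := fun f => rfl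
  have hGH : ∀ f : L2 d, (⟪f, G f⟫_ℂ).re = 2 * d * ‖f‖ ^ 2 - (⟪f, H f⟫_ℂ).re := by
    intro f
    have hself : ⟪f, f⟫_ℂ = ((‖f‖ ^ 2 : ℝ) : ℂ) := by
      rw [inner_self_eq_norm_sq_to_K]; push_cast; rfl
    rw [hGa, inner_sub_right, inner_smul_right, hself, Complex.sub_re, Complex.re_ofReal_mul,
      Complex.ofReal_re]
  refine ⟨⟨ψ, hψ, fun x => ?_⟩, ?_, G, ?_, ?_, ?_, ?_⟩
  · rw [adj_eq, hψe x]; ring
  · intro Λ s k hs
    have h := compare σ η E (fun y => -V y) ψ hψ hψe Λ s hs k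
    rw [eigsT_iff, eigsT_iff, eigsT_iff, eigsT_iff]
    have z : (fun y : Z d => -(0 : Z d → ℝ) y) = 0 := by funext y; simp
    rw [z]
    have e1 : (2 : ℝ) * d - (2 * d - s) = s := by ring
    have e2 : (2 : ℝ) * d - (2 * d - E - (1 + η) ^ 2 * s) = E + (1 + η) ^ 2 * s := by ring
    have e3 : (2 : ℝ) * d - (2 * d - E - s) = E + s := by ring
    have e4 : (2 : ℝ) * d - (2 * d - (1 + η) ^ 2 * s) = (1 + η) ^ 2 * s := by ring
    rw [e1, e2, e3, e4]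
    exact h
  · intro f x
    have e0 : (G f) x = ((2 * d : ℝ) : ℂ) * f x - (H f) x := by rw [hGa]; rfl
    rw [e0, hH]
    have e : ∀ i : Fin d, 2 * f x - f (x + Pi.single i 1) - f (x - Pi.single i 1) =
        2 * f x - (f (x + Pi.single i 1) + f (x - Pi.single i 1)) := fun i => by ring
    rw [Finset.sum_congr rfl fun i _ => e i, Finset.sum_sub_distrib, Finset.sum_const,
      Finset.card_univ, Fintype.card_fin, nsmul_eq_mul]
    push_cast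
    ring
  · intro f
    have h := form_low hH E ψ hψ1 hψe f
    rw [hGH]
    linarith
  · intro ε hε
    obtain ⟨f, hf, h⟩ := form_up hH E ψ hψ1 hψ2 hψe ε hε
    refine ⟨f, hf, ?_⟩
    rw [hGH]
    linarith
  · intro s hs M hM hform
    refine hloc σ E (fun y => -V y) ψ hψ1 hψ2 hψe H hH s hs M (fun f hf => ?_) (fun f hf => ?_)
    · have e : H f = ((2 * d : ℝ) : ℂ) • f - G f := by rw [hGa]; abel
      rw [e]
      exact M.sub_mem (M.smul_mem _ hf) (hM f hf)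
    · have h := hform f hf
      rw [hGH] at h
      linarith

/-- reflection of pairs -/
def ng {d : ℕ} (p : XX d) : XX d := (fun x => -p.1 x, fun x => -p.2 x)

lemma measurable_ng {d : ℕ} : Measurable (ng (d := d)) := by
  unfold ng
  fun_prop

theorem main_G (d : ℕ) (hd : 5 ≤ d) : ∃ C : ℝ, 0 < C ∧ ∀ η : ℝ, 0 < η → η ≤ 1 →
    ∃ c : ℝ, 0 < c ∧ ∀ σ : ℝ, 0 < σ → σ ≤ c → ∃ E : ℝ, |E - 2 * d| ≤ 8 * σ ∧
      ∃ P : Measure (XX d), IsProbabilityMeasure P ∧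
        P.map Prod.fst = Measure.infinitePi (fun _ : Z d => gaussianReal 0 1) ∧
        (∀ a : Z d, P.map (sh a) = P) ∧
        P.real {p | p.2 0 ≠ p.1 0} ≤ Real.exp (-(c / σ ^ 2)) ∧
        ∀ᵐ p ∂P, (∀ x, |p.2 x| ≤ 3 / σ) ∧ ExtT C η σ E p.2 := by
  obtain ⟨C, hC, hext⟩ := ext_of_flat d (by omega)
  refine ⟨C, hC, fun η hη hη1 => ?_⟩
  obtain ⟨c, hc, hc1, hmodi⟩ := modiG d hd η hη hη1
  refine ⟨c, hc, fun σ hσ hσc => ?_⟩
  obtain ⟨E, hE, P, hPp, h1, h2, h3, h4⟩ := cptG d (gaussianReal 0 1) σ η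
    (Real.exp (-(c / σ ^ 2))) (3 / σ) (8 * σ) hη1 (fun L _ => by
      obtain ⟨E, -, Φ, hΦ1, hΦ2, hΦ3, hΦ4⟩ := hmodi σ hσ hσc L
      exact ⟨E, energy η c σ E hη1 hc hσ hσc Φ hΦ1 hΦ3 hΦ4, Φ, hΦ1, hΦ2, hΦ3, hΦ4⟩)
  have hm := measurable_ng (d := d)
  refine ⟨2 * d - E, by rw [sub_sub_cancel_left, abs_neg]; exact hE, P.map ng,
    Measure.isProbabilityMeasure_map hm.aemeasurable, ?_, ?_, ?_, ?_⟩
  · rw [Measure.map_map measurable_fst hm]
    have e1 : Prod.fst ∘ ng (d := d) = (fun V : Z d → ℝ => fun x => -V x) ∘ Prod.fst := rfl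
    rw [e1, ← Measure.map_map (by fun_prop) measurable_fst, h1]
    have e2 := Measure.infinitePi_map_pi (μ := fun _ : Z d => gaussianReal 0 1)
      (f := fun (_ : Z d) (t : ℝ) => -t) (fun _ => by fun_prop)
    rw [e2]
    congr 1
    funext _
    rw [gaussianReal_map_neg, neg_zero]
  · intro a
    rw [Measure.map_map (measurable_sh a) hm]
    have e1 : sh a ∘ ng (d := d) = ng ∘ sh a := rfl
    rw [e1, ← Measure.map_map hm (measurable_sh a), h2]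
  · have hms : MeasurableSet {p : XX d | p.2 0 ≠ p.1 0} := by
      have : IsOpen {p : XX d | p.2 0 ≠ p.1 0} := by refine isOpen_ne_fun ?_ ?_ <;> fun_prop
      exact this.measurableSet
    rw [map_measureReal_apply hm hms]
    have e1 : ng ⁻¹' {p : XX d | p.2 0 ≠ p.1 0} = {p : XX d | p.2 0 ≠ p.1 0} := by
      ext p
      simp [ng]
    rw [e1]
    exact h3
  · have hA : ∀ᵐ p ∂P, (∀ x, |(ng p).2 x| ≤ 3 / σ) ∧ ExtT C η σ (2 * d - E) (ng p).2 := by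
      filter_upwards [h4] with p hp
      obtain ⟨hV, ψ, hψ, hψe⟩ := hp
      have hψe' : ∀ x, HopZ σ p.2 ψ x = E * ψ x := by
        intro x
        have := abs_nonpos_iff.1 (hψe x)
        linarith
      have hV' : ∀ x, |(ng p).2 x| ≤ 3 / σ := fun x => by
        simp only [ng]
        rw [abs_neg]
        exact hV x
      refine ⟨hV', hext η σ E (3 / σ) (ng p).2 ψ hη hη1 (by positivity) hV' (fun x => hψ x) ?_⟩
      intro x
      have e : (fun y => -(ng p).2 y) = p.2 := by funext y; simp [ng]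
      rw [e]
      exact hψe' x
    -- transfer to the image measure: the set need not be measurable, use the inverse
    have hinv : (P.map ng).map ng = P := by
      rw [Measure.map_map hm hm]
      have : ng ∘ ng (d := d) = id := by funext p; simp [ng]
      rw [this, Measure.map_id]
    rw [← hinv] at hA
    have hB := ae_of_ae_map hm.aemeasurable hA
    filter_upwards [hB] with p hp
    have : ng (ng p) = p := by simp [ng]
    rw [this] at hp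
    exact hp

end Pool.Agent.U874.And
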