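import Pool.Agent.U874.And.Cpt

/-! # Anderson model, rare changes: a lower bound for the density of the changes -/

set_option autoImplicit false

open MeasureTheory Filter Topology

namespace Pool.Agent.U874.And

/-- tent function -/
def tent (R : ℕ) (k : ℤ) : ℤ := max 0 ((R : ℤ) - |k|)

lemma tent_nonneg (R : ℕ) (k : ℤ) : 0 ≤ tent R k := le_max_left _ _

lemma tent_zero (R : ℕ) (k : ℤ) (h : (R : ℤ) ≤ |k|) : tent R k = 0 := by
  unfold tent
  exact max_eq_left (by linarith)

/-- second difference of the tent function -/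
lemma tent_diff (R : ℕ) (hR : 1 ≤ R) (k : ℤ) :
    |2 * tent R k - tent R (k + 1) - tent R (k - 1)| ≤
      (if k = 0 then 2 else 0) + (if k = R then 1 else 0) + (if k = -R then 1 else 0) := by
  unfold tent
  have h1 := abs_cases k
  have h2 := abs_cases (k + 1)
  have h3 := abs_cases (k - 1)
  rcases max_cases 0 ((R : ℤ) - |k|) with ⟨e1, f1⟩ | ⟨e1, f1⟩ <;>
  rcases max_cases 0 ((R : ℤ) - |k + 1|) with ⟨e2, f2⟩ | ⟨e2, f2⟩ <;>
  rcases max_cases 0 ((R : ℤ) - |k - 1|) with ⟨e3, f3⟩ | ⟨e3, f3⟩ <;>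
  rw [e1, e2, e3, abs_le] <;> split_ifs <;> omega

/-- interval containing the support of the tent function and of its second difference -/
noncomputable def II (R : ℕ) : Finset ℤ := Finset.Icc (-(R : ℤ)) R

lemma tent_diff_sum (R : ℕ) (hR : 1 ≤ R) :
    ∑ k ∈ II R, |2 * tent R k - tent R (k + 1) - tent R (k - 1)| ≤ 4 := by
  refine (Finset.sum_le_sum fun k _ => tent_diff R hR k).trans ?_
  rw [Finset.sum_add_distrib, Finset.sum_add_distrib, Finset.sum_ite_eq', Finset.sum_ite_eq',
    Finset.sum_ite_eq']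
  have h1 : (0 : ℤ) ∈ II R := by unfold II; rw [Finset.mem_Icc]; omega
  have h2 : (R : ℤ) ∈ II R := by unfold II; rw [Finset.mem_Icc]; omega
  have h3 : (-(R : ℤ)) ∈ II R := by unfold II; rw [Finset.mem_Icc]; omega
  rw [if_pos h1, if_pos h2, if_pos h3]
  norm_num

lemma tent_sum (R : ℕ) : (R : ℤ) ^ 2 ≤ 2 * ∑ k ∈ II R, tent R k := by
  have h1 : Finset.Icc (-((R / 2 : ℕ) : ℤ)) ((R / 2 : ℕ) : ℤ) ⊆ II R := by
    unfold II
    apply Finset.Icc_subset_Icc <;> omega
  have h2 : ∑ k ∈ Finset.Icc (-((R / 2 : ℕ) : ℤ)) ((R / 2 : ℕ) : ℤ), ((R : ℤ) - (R / 2 : ℕ)) ≤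
      ∑ k ∈ II R, tent R k := by
    refine (Finset.sum_le_sum fun k hk => ?_).trans
      (Finset.sum_le_sum_of_subset_of_nonneg h1 fun k _ _ => tent_nonneg R k)
    rw [Finset.mem_Icc] at hk
    unfold tent
    refine le_trans ?_ (le_max_right _ _)
    have := abs_le.2 hk
    omega
  rw [Finset.sum_const, Int.card_Icc, nsmul_eq_mul] at h2
  have h3 : (((((R / 2 : ℕ) : ℤ) + 1 - -((R / 2 : ℕ) : ℤ)).toNat : ℕ) : ℤ) =
      2 * ((R / 2 : ℕ) : ℤ) + 1 := by
    rw [Int.toNat_of_nonneg (by omega)]; ring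
  rw [h3] at h2
  have h4 : (R : ℤ) ≤ 2 * ((R / 2 : ℕ) : ℤ) + 1 := by omega
  have h5 : (R : ℤ) ≤ 2 * ((R : ℤ) - (R / 2 : ℕ)) := by omega
  have h6 : (0 : ℤ) ≤ R := by positivity
  nlinarith

/-- the bump -/
def bump {d : ℕ} (R : ℕ) (z x : Z d) : ℝ := ∏ i, (tent R (x i - z i) : ℝ)

/-- the box around `z` -/
noncomputable def box {d : ℕ} (R : ℕ) (z : Z d) : Finset (Z d) :=
  Fintype.piFinset fun i => Finset.Icc (z i - R) (z i + R)

lemma mem_box {d : ℕ} (R : ℕ) (z x : Z d) : x ∈ box R z ↔ ∀ i, |x i - z i| ≤ R := by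
  unfold box
  rw [Fintype.mem_piFinset]
  refine forall_congr' fun i => ?_
  rw [Finset.mem_Icc, abs_le]
  constructor <;> intro h <;> constructor <;> linarith [h.1, h.2]

lemma card_box {d : ℕ} (R : ℕ) (z : Z d) : (box R z).card = (2 * R + 1) ^ d := by
  unfold box
  rw [Fintype.card_piFinset]
  have : ∀ i : Fin d, (Finset.Icc (z i - (R : ℤ)) (z i + R)).card = 2 * R + 1 := by
    intro i
    rw [Int.card_Icc]
    omega
  rw [Finset.prod_congr rfl fun i _ => this i]
  simp

lemma sum_box {d : ℕ} (R : ℕ) (z : Z d) (f : Fin d → ℤ → ℝ) :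
    ∑ x ∈ box R z, ∏ i, f i (x i - z i) = ∏ i, ∑ k ∈ II R, f i k := by
  have h : ∀ i : Fin d, ∑ k ∈ II R, f i k = ∑ m ∈ Finset.Icc (z i - (R : ℤ)) (z i + R), f i (m - z i) := by
    intro i
    unfold II
    refine Finset.sum_bij (fun k _ => k + z i) ?_ ?_ ?_ ?_
    · intro k hk; rw [Finset.mem_Icc] at hk ⊢; omega
    · intro k _ k' _ h; linarith
    · intro m hm
      rw [Finset.mem_Icc] at hm
      exact ⟨m - z i, by rw [Finset.mem_Icc]; omega, by ring⟩
    · intro k _; congr 1; ring
  rw [Finset.prod_congr rfl fun i _ => h i, Finset.prod_univ_sum]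
  rfl

lemma bump_nonneg {d : ℕ} (R : ℕ) (z x : Z d) : 0 ≤ bump R z x :=
  Finset.prod_nonneg fun i _ => by exact_mod_cast tent_nonneg R _

lemma bump_zero {d : ℕ} (R : ℕ) (z x : Z d) (h : ∃ i, (R : ℤ) ≤ |x i - z i|) : bump R z x = 0 := by
  obtain ⟨i, hi⟩ := h
  unfold bump
  exact Finset.prod_eq_zero (Finset.mem_univ i) (by rw [tent_zero R _ hi]; simp)

/-- the second difference of the bump in direction `i` -/
lemma bump_diff {d : ℕ} (R : ℕ) (z x : Z d) (i : Fin d) :
    |2 * bump R z x - bump R z (x + Pi.single i 1) - bump R z (x - Pi.single i 1)| =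
      ∏ j, (if j = i then (|2 * tent R (x j - z j) - tent R (x j - z j + 1) -
        tent R (x j - z j - 1)| : ℤ) else tent R (x j - z j) : ℝ) := by
  have h1 : bump R z x = (tent R (x i - z i) : ℝ) * ∏ j ∈ Finset.univ.erase i,
      (tent R (x j - z j) : ℝ) := by
    unfold bump
    exact (Finset.mul_prod_erase Finset.univ (fun j => (tent R (x j - z j) : ℝ))
      (Finset.mem_univ i)).symm
  have h2 : bump R z (x + Pi.single i 1) = (tent R (x i - z i + 1) : ℝ) *
      ∏ j ∈ Finset.univ.erase i, (tent R (x j - z j) : ℝ) := by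
    unfold bump
    rw [← Finset.mul_prod_erase _ _ (Finset.mem_univ i)]
    congr 1
    · rw [Pi.add_apply, Pi.single_eq_same]
      congr 2; ring
    · refine Finset.prod_congr rfl fun j hj => ?_
      rw [Pi.add_apply, Pi.single_eq_of_ne (Finset.ne_of_mem_erase hj), add_zero]
  have h3 : bump R z (x - Pi.single i 1) = (tent R (x i - z i - 1) : ℝ) *
      ∏ j ∈ Finset.univ.erase i, (tent R (x j - z j) : ℝ) := by
    unfold bump
    rw [← Finset.mul_prod_erase _ _ (Finset.mem_univ i)]
    congr 1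
    · rw [Pi.sub_apply, Pi.single_eq_same]
      congr 2; ring
    · refine Finset.prod_congr rfl fun j hj => ?_
      rw [Pi.sub_apply, Pi.single_eq_of_ne (Finset.ne_of_mem_erase hj), sub_zero]
  rw [h1, h2, h3, ← Finset.mul_prod_erase _ _ (Finset.mem_univ i), if_pos rfl]
  have h4 : ∏ j ∈ Finset.univ.erase i, (if j = i then ((|2 * tent R (x j - z j) -
        tent R (x j - z j + 1) - tent R (x j - z j - 1)| : ℤ) : ℝ) else (tent R (x j - z j) : ℝ)) =
      ∏ j ∈ Finset.univ.erase i, (tent R (x j - z j) : ℝ) :=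
    Finset.prod_congr rfl fun j hj => by rw [if_neg (Finset.ne_of_mem_erase hj)]
  rw [h4]
  have h5 : 0 ≤ ∏ j ∈ Finset.univ.erase i, (tent R (x j - z j) : ℝ) :=
    Finset.prod_nonneg fun j _ => by exact_mod_cast tent_nonneg R _
  have h6 : 2 * ((tent R (x i - z i) : ℝ) * ∏ j ∈ Finset.univ.erase i, (tent R (x j - z j) : ℝ)) -
      (tent R (x i - z i + 1) : ℝ) * ∏ j ∈ Finset.univ.erase i, (tent R (x j - z j) : ℝ) -
      (tent R (x i - z i - 1) : ℝ) * ∏ j ∈ Finset.univ.erase i, (tent R (x j - z j) : ℝ) =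
      (2 * (tent R (x i - z i) : ℝ) - tent R (x i - z i + 1) - tent R (x i - z i - 1)) *
        ∏ j ∈ Finset.univ.erase i, (tent R (x j - z j) : ℝ) := by ring
  rw [h6, abs_mul, abs_of_nonneg h5]
  push_cast
  rfl

/-- the sum of the second differences -/
lemma bump_diff_sum {d : ℕ} (R : ℕ) (hR : 1 ≤ R) (z : Z d) (i : Fin d) :
    (∑ k ∈ II R, (tent R k : ℝ)) * ∑ x ∈ box R z,
      |2 * bump R z x - bump R z (x + Pi.single i 1) - bump R z (x - Pi.single i 1)| ≤
      4 * (∑ k ∈ II R, (tent R k : ℝ)) ^ d := by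
  set S := ∑ k ∈ II R, (tent R k : ℝ) with hS
  have hS0 : 0 ≤ S := Finset.sum_nonneg fun k _ => by exact_mod_cast tent_nonneg R k
  rw [Finset.sum_congr rfl fun x _ => bump_diff R z x i]
  have h1 := sum_box R z (fun j k => (if j = i then ((|2 * tent R k - tent R (k + 1) -
        tent R (k - 1)| : ℤ) : ℝ) else (tent R k : ℝ)))
  rw [h1, ← Finset.mul_prod_erase _ _ (Finset.mem_univ i)]
  have h2 : ∏ j ∈ Finset.univ.erase i, ∑ k ∈ II R, (if j = i then ((|2 * tent R k -
      tent R (k + 1) - tent R (k - 1)| : ℤ) : ℝ) else (tent R k : ℝ)) =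
      ∏ j ∈ Finset.univ.erase i, S := by
    refine Finset.prod_congr rfl fun j hj => ?_
    simp only [if_neg (Finset.ne_of_mem_erase hj)]
    rfl
  rw [h2]
  simp only [if_true]
  have h3 : ∑ k ∈ II R, ((|2 * tent R k - tent R (k + 1) - tent R (k - 1)| : ℤ) : ℝ) ≤ 4 := by
    exact_mod_cast tent_diff_sum R hR
  have h4 : S * ∏ _j ∈ Finset.univ.erase i, S = S ^ d := by
    rw [Finset.mul_prod_erase Finset.univ (fun _ => S) (Finset.mem_univ i)]
    simp
  have h5 : 0 ≤ ∏ _j ∈ Finset.univ.erase i, S := Finset.prod_nonneg fun _ _ => hS0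
  calc S * ((∑ k ∈ II R, ((|2 * tent R k - tent R (k + 1) - tent R (k - 1)| : ℤ) : ℝ)) *
        ∏ _j ∈ Finset.univ.erase i, S)
      = (∑ k ∈ II R, ((|2 * tent R k - tent R (k + 1) - tent R (k - 1)| : ℤ) : ℝ)) *
        (S * ∏ _j ∈ Finset.univ.erase i, S) := by ring
    _ ≤ 4 * S ^ d := by
        rw [h4]
        exact mul_le_mul_of_nonneg_right h3 (by positivity)

/-- summation by parts for functions of finite support -/
lemma parts {d : ℕ} (φ ψ : Z d → ℝ) (hφ : (Function.support φ).Finite) (i : Fin d) :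
    ∑' x, φ x * (2 * ψ x - ψ (x + Pi.single i 1) - ψ (x - Pi.single i 1)) =
      ∑' x, (2 * φ x - φ (x + Pi.single i 1) - φ (x - Pi.single i 1)) * ψ x := by
  have hs : ∀ g : Z d → ℝ, Summable fun x => φ x * g x := fun g =>
    summable_of_hasFiniteSupport (hφ.subset fun x hx => by
      intro h; apply hx; simp [Function.notMem_support.1 (fun h' => h' h)] )
  have hsh : ∀ (e : Z d) (g : Z d → ℝ), Summable fun x => φ (x + e) * g x := by
    intro e g
    have h1 := (Equiv.addRight e).summable_iff (f := fun x => φ x * g (x - e))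
    have h2 : ((fun x => φ x * g (x - e)) ∘ (Equiv.addRight e)) = fun x => φ (x + e) * g x := by
      funext x; simp
    rw [h2] at h1
    exact h1.2 (hs _)
  have ht : ∀ (e : Z d) (g : Z d → ℝ), ∑' x, φ x * g (x - e) = ∑' x, φ (x + e) * g x := by
    intro e g
    have h1 := (Equiv.addRight e).tsum_eq (fun x => φ x * g (x - e))
    rw [← h1]
    simp
  set e : Z d := Pi.single i 1 with he
  have l1 : ∀ x, φ x * (2 * ψ x - ψ (x + e) - ψ (x - e)) =
      φ x * (2 * ψ x) - φ x * ψ (x - (-e)) - φ x * ψ (x - e) := by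
    intro x; rw [sub_neg_eq_add]; ring
  have l2 : ∀ x, (2 * φ x - φ (x + e) - φ (x - e)) * ψ x =
      φ x * (2 * ψ x) - φ (x + (-e)) * ψ x - φ (x + e) * ψ x := by
    intro x; rw [← sub_eq_add_neg]; ring
  simp_rw [l1, l2]
  rw [Summable.tsum_sub ((hs _).sub (hs _)) (hs _), Summable.tsum_sub (hs _) (hs _),
    Summable.tsum_sub ((hs _).sub (hsh _ _)) (hsh _ _), Summable.tsum_sub (hs _) (hsh _ _),
    ht, ht]


/-- averaged form of the eigenvalue equation: if the potential is at most `a` near `z`, then the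
energy is at most `lam a + 8 d M / R²` -/
lemma upper {d : ℕ} (lam M E a : ℝ) (hlam : 0 ≤ lam) (hM : 1 ≤ M) (V ψ : Z d → ℝ)
    (hψ : ∀ x, 1 ≤ ψ x ∧ ψ x ≤ M) (s : ℝ) (hs : s = 1 ∨ s = -1)
    (h : ∀ x, HopZ lam V ψ x = E * ψ x) (R : ℕ) (hR : 1 ≤ R) (z : Z d)
    (hV : ∀ x ∈ box R z, s * (V x - a) ≤ 0) : s * (E - lam * a) ≤ 8 * d * M / R ^ 2 := by
  set S := ∑ k ∈ II R, (tent R k : ℝ) with hS
  have hRr : (1 : ℝ) ≤ R := by exact_mod_cast hR
  have hS2 : (R : ℝ) ^ 2 ≤ 2 * S := by
    have := tent_sum R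
    rw [hS]
    exact_mod_cast this
  have hS0 : 0 < S := by nlinarith
  have hbox : ∀ x, x ∉ box R z → ∃ i, (R : ℤ) < |x i - z i| := by
    intro x hx
    rw [mem_box] at hx
    push Not at hx
    exact hx
  have hb0 : ∀ x, x ∉ box R z → bump R z x = 0 := fun x hx => by
    obtain ⟨i, hi⟩ := hbox x hx
    exact bump_zero R z x ⟨i, hi.le⟩
  have hfin : (Function.support (bump R z)).Finite :=
    (box R z).finite_toSet.subset fun x hx => by
      by_contra h
      exact hx (hb0 x h)
  -- second differences vanish outside the box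
  have hd0 : ∀ (i : Fin d) (x : Z d), x ∉ box R z →
      2 * bump R z x - bump R z (x + Pi.single i 1) - bump R z (x - Pi.single i 1) = 0 := by
    intro i x hx
    obtain ⟨j, hj⟩ := hbox x hx
    have e1 : bump R z (x + Pi.single i 1) = 0 := by
      apply bump_zero
      refine ⟨j, ?_⟩
      rw [Pi.add_apply]
      by_cases hij : j = i
      · subst hij
        rw [Pi.single_eq_same]
        have := abs_cases (x j - z j)
        have := abs_cases (x j + 1 - z j)
        omega
      · rw [Pi.single_eq_of_ne hij, add_zero]; exact hj.le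
    have e2 : bump R z (x - Pi.single i 1) = 0 := by
      apply bump_zero
      refine ⟨j, ?_⟩
      rw [Pi.sub_apply]
      by_cases hij : j = i
      · subst hij
        rw [Pi.single_eq_same]
        have := abs_cases (x j - z j)
        have := abs_cases (x j - 1 - z j)
        omega
      · rw [Pi.single_eq_of_ne hij, sub_zero]; exact hj.le
    rw [hb0 x hx, e1, e2]; ring
  -- the identity
  have key : ∑' x, bump R z x * ((E - lam * V x) * ψ x) = ∑ i : Fin d, ∑ x ∈ box R z,
      (2 * bump R z x - bump R z (x + Pi.single i 1) - bump R z (x - Pi.single i 1)) * ψ x := by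
    have e1 : ∀ x, bump R z x * ((E - lam * V x) * ψ x) = ∑ i : Fin d,
        bump R z x * (2 * ψ x - ψ (x + Pi.single i 1) - ψ (x - Pi.single i 1)) := by
      intro x
      rw [← Finset.mul_sum]
      congr 1
      have := h x
      unfold HopZ at this
      linarith
    simp_rw [e1]
    rw [Summable.tsum_finsetSum fun i _ => summable_of_hasFiniteSupport (hfin.subset
      fun x hx h' => hx (by simp [h']))]
    refine Finset.sum_congr rfl fun i _ => ?_
    rw [parts _ _ hfin i]
    exact tsum_eq_sum fun x hx => by rw [hd0 i x hx, zero_mul]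
  have key2 : ∑' x, bump R z x * ((E - lam * V x) * ψ x) =
      ∑ x ∈ box R z, bump R z x * ((E - lam * V x) * ψ x) :=
    tsum_eq_sum fun x hx => by rw [hb0 x hx, zero_mul]
  -- upper bound of the right-hand side
  have hup : ∀ i : Fin d, S * |∑ x ∈ box R z,
      (2 * bump R z x - bump R z (x + Pi.single i 1) - bump R z (x - Pi.single i 1)) * ψ x| ≤
      M * (4 * S ^ d) := by
    intro i
    have h1 : |∑ x ∈ box R z, (2 * bump R z x - bump R z (x + Pi.single i 1) -
        bump R z (x - Pi.single i 1)) * ψ x| ≤ M * ∑ x ∈ box R z, |2 * bump R z x -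
          bump R z (x + Pi.single i 1) - bump R z (x - Pi.single i 1)| := by
      rw [Finset.mul_sum]
      refine (Finset.abs_sum_le_sum_abs _ _).trans (Finset.sum_le_sum fun x _ => ?_)
      rw [abs_mul, mul_comm, abs_of_nonneg (by linarith [(hψ x).1] : 0 ≤ ψ x)]
      exact mul_le_mul_of_nonneg_right (hψ x).2 (abs_nonneg _)
    calc S * _ ≤ S * (M * ∑ x ∈ box R z, |2 * bump R z x -
          bump R z (x + Pi.single i 1) - bump R z (x - Pi.single i 1)|) :=
          mul_le_mul_of_nonneg_left h1 hS0.le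
      _ = M * (S * ∑ x ∈ box R z, |2 * bump R z x -
          bump R z (x + Pi.single i 1) - bump R z (x - Pi.single i 1)|) := by ring
      _ ≤ _ := mul_le_mul_of_nonneg_left (bump_diff_sum R hR z i) (by linarith)
  have hup2 : S * |∑' x, bump R z x * ((E - lam * V x) * ψ x)| ≤ d * (M * (4 * S ^ d)) := by
    rw [key]
    calc S * |_| ≤ S * ∑ i : Fin d, |∑ x ∈ box R z, (2 * bump R z x -
          bump R z (x + Pi.single i 1) - bump R z (x - Pi.single i 1)) * ψ x| :=
          mul_le_mul_of_nonneg_left (Finset.abs_sum_le_sum_abs _ _) hS0.le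
      _ = ∑ i : Fin d, S * |∑ x ∈ box R z, (2 * bump R z x -
          bump R z (x + Pi.single i 1) - bump R z (x - Pi.single i 1)) * ψ x| := by
          rw [Finset.mul_sum]
      _ ≤ ∑ _i : Fin d, M * (4 * S ^ d) := Finset.sum_le_sum fun i _ => hup i
      _ = _ := by simp
  -- lower bound of the left-hand side
  by_cases hneg : s * (E - lam * a) ≤ 0
  · exact hneg.trans (by positivity)
  push Not at hneg
  have hlow : s * (E - lam * a) * S ^ d ≤ s * ∑' x, bump R z x * ((E - lam * V x) * ψ x) := by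
    have hSd : S ^ d = ∑ x ∈ box R z, bump R z x := by
      have := sum_box R z (fun _ k => (tent R k : ℝ))
      unfold bump
      rw [this]
      simp [hS]
    rw [key2, hSd, Finset.mul_sum, Finset.mul_sum]
    refine Finset.sum_le_sum fun x hx => ?_
    have h1 := bump_nonneg R z x
    have h2 : s * (E - lam * a) ≤ s * (E - lam * V x) := by
      have := mul_le_mul_of_nonneg_left (hV x hx) hlam
      have e : s * (E - lam * V x) = s * (E - lam * a) - lam * (s * (V x - a)) := by ring
      rw [e]; linarith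
    have h3 : s * (E - lam * a) ≤ s * (E - lam * V x) * ψ x := by
      have := (hψ x).1
      nlinarith
    calc s * (E - lam * a) * bump R z x ≤ s * (E - lam * V x) * ψ x * bump R z x :=
          mul_le_mul_of_nonneg_right h3 h1
      _ = _ := by ring
  have h5 : s * ∑' x, bump R z x * ((E - lam * V x) * ψ x) ≤
      |∑' x, bump R z x * ((E - lam * V x) * ψ x)| := by
    rcases hs with rfl | rfl
    · rw [one_mul]; exact le_abs_self _
    · rw [neg_one_mul]; exact neg_le_abs _
  have h6 : S * (s * (E - lam * a)) * S ^ d ≤ (4 * d * M) * S ^ d := by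
    calc S * (s * (E - lam * a)) * S ^ d = S * (s * (E - lam * a) * S ^ d) := by ring
      _ ≤ S * |∑' x, bump R z x * ((E - lam * V x) * ψ x)| :=
          mul_le_mul_of_nonneg_left (hlow.trans h5) hS0.le
      _ ≤ d * (M * (4 * S ^ d)) := hup2
      _ = _ := by ring
  have h7 : S * (s * (E - lam * a)) ≤ 4 * d * M := le_of_mul_le_mul_right h6 (by positivity)
  rw [le_div_iff₀ (by positivity)]
  nlinarith

end Pool.Agent.U874.And
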