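import Pool.Agent.U874.And.MainG

/-! # Gaussian disorder, rare changes: the lower bound -/

set_option autoImplicit false

open MeasureTheory ProbabilityTheory Filter Topology

namespace Pool.Agent.U874.And

lemma gauss_low (t : ℝ) (ht : 0 ≤ t) :
    1 / 3 * Real.exp (-((t + 1) ^ 2 / 2)) ≤ (gaussianReal 0 1).real (Set.Ici t) := by
  have h1 : ENNReal.ofReal (1 / 3 * Real.exp (-((t + 1) ^ 2 / 2))) ≤
      gaussianReal 0 1 (Set.Icc t (t + 1)) := by
    rw [gaussianReal_apply 0 one_ne_zero]
    have h2 : ∫⁻ _x in Set.Icc t (t + 1), ENNReal.ofReal (1 / 3 * Real.exp (-((t + 1) ^ 2 / 2))) ≤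
        ∫⁻ x in Set.Icc t (t + 1), gaussianPDF 0 1 x := by
      refine setLIntegral_mono (measurable_gaussianPDF 0 1) fun x hx => ?_
      rw [gaussianPDF]
      refine ENNReal.ofReal_le_ofReal ?_
      rw [gaussianPDFReal]
      have hx1 : (x - 0) ^ 2 ≤ (t + 1) ^ 2 := by
        rw [sub_zero]
        have := hx.1
        have := hx.2
        nlinarith
      have hpi : Real.sqrt (2 * Real.pi * ((1 : NNReal) : ℝ)) ≤ 3 := by
        rw [Real.sqrt_le_left (by norm_num)]
        have := Real.pi_lt_d2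
        push_cast
        nlinarith
      have hpi0 : 0 < Real.sqrt (2 * Real.pi * ((1 : NNReal) : ℝ)) := by
        apply Real.sqrt_pos.2
        have := Real.pi_pos
        push_cast
        positivity
      have h3 : (1 / 3 : ℝ) ≤ (Real.sqrt (2 * Real.pi * ((1 : NNReal) : ℝ)))⁻¹ := by
        rw [← one_div]
        exact one_div_le_one_div_of_le hpi0 hpi
      refine mul_le_mul h3 ?_ (Real.exp_pos _).le (by positivity)
      apply Real.exp_le_exp.2
      push_cast
      rw [mul_one, neg_div]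
      apply neg_le_neg
      exact div_le_div_of_nonneg_right hx1 (by norm_num)
    refine le_trans (le_of_eq ?_) h2
    rw [setLIntegral_const, Real.volume_Icc]
    simp
  have h2 : gaussianReal 0 1 (Set.Icc t (t + 1)) ≤ gaussianReal 0 1 (Set.Ici t) :=
    measure_mono fun x hx => hx.1
  rw [Measure.real, ← ENNReal.ofReal_le_iff_le_toReal (measure_ne_top _ _)]
  exact h1.trans h2

lemma gauss_low' (t : ℝ) (ht : 0 ≤ t) :
    1 / 3 * Real.exp (-((t + 1) ^ 2 / 2)) ≤ (gaussianReal 0 1).real (Set.Iic (-t)) := by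
  have h1 := gauss_low t ht
  have h2 : Measure.map (fun x : ℝ => -x) (gaussianReal 0 1) = gaussianReal 0 1 := by
    rw [gaussianReal_map_neg, neg_zero]
  have h3 : (gaussianReal 0 1).real (Set.Iic (-t)) = (gaussianReal 0 1).real (Set.Ici t) := by
    conv_lhs => rw [← h2]
    rw [map_measureReal_apply (by fun_prop) measurableSet_Iic]
    congr 1
    ext x
    simp
  rw [h3]
  exact h1

theorem sharpG (d : ℕ) (hd : 1 ≤ d) (M : ℝ) (hM : 1 ≤ M) : ∃ C : ℝ, 0 < C ∧
    ∀ σ : ℝ, 0 < σ → σ ≤ 1 → ∀ P : Measure (XX d), IsProbabilityMeasure P →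
      P.map Prod.fst = Measure.infinitePi (fun _ : Z d => gaussianReal 0 1) →
      (∀ᵐ p ∂P, ∃ (E : ℝ) (ψ : Z d → ℝ), (∀ x, 1 ≤ ψ x ∧ ψ x ≤ M) ∧
        ∀ x, Adj σ p.2 ψ x = E * ψ x) →
      ∃ x, Real.exp (-(C / σ ^ 2)) ≤ P.real {p | p.2 x ≠ p.1 x} := by
  have hd0 : (1 : ℝ) ≤ d := by exact_mod_cast hd
  refine ⟨(2 * d * M + 2) ^ 2 + 3, by positivity, ?_⟩
  intro σ hσ hσ1 P hPp hP hae
  by_contra hcon
  push Not at hcon
  set t : ℝ := (2 * d * M + 1) / σ with ht
  have ht0 : 0 ≤ t := by positivity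
  set z : Z d := 0 with hz
  set w : Z d := fun _ => 1 with hw
  have hzw : z ≠ w := by
    intro h
    have := congrFun h ⟨0, by omega⟩
    simp [hz, hw] at this
  classical
  set B : Finset (Z d) := {z, w} with hB
  set s : Z d → Set ℝ := fun x => if x = z then Set.Ici t else Set.Iic (-t) with hs
  have hsm : ∀ x, MeasurableSet (s x) := by
    intro x
    simp only [hs]
    split_ifs
    · exact measurableSet_Ici
    · exact measurableSet_Iic
  have es1 : s z = Set.Ici t := if_pos rfl
  have es2 : s w = Set.Iic (-t) := if_neg (Ne.symm hzw)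
  set A : Set (XX d) := Prod.fst ⁻¹' (Set.pi (B : Set (Z d)) s) with hA
  have hpm : MeasurableSet (Set.pi (B : Set (Z d)) s) :=
    MeasurableSet.pi B.countable_toSet fun x _ => hsm x
  have hPA : (1 / 3 * Real.exp (-((t + 1) ^ 2 / 2))) * (1 / 3 * Real.exp (-((t + 1) ^ 2 / 2))) ≤
      P.real A := by
    have h1 : P A = ∏ x ∈ B, gaussianReal 0 1 (s x) := by
      rw [hA, ← Measure.map_apply measurable_fst hpm, hP, Measure.infinitePi_pi _ fun x _ => hsm x]
    have h2 : P.real A = ∏ x ∈ B, (gaussianReal 0 1).real (s x) := by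
      rw [Measure.real, h1, ENNReal.toReal_prod]
      rfl
    rw [h2, hB, Finset.prod_pair hzw]
    rw [es1, es2]
    exact mul_le_mul (gauss_low t ht0) (gauss_low' t ht0) (by positivity) measureReal_nonneg
  set Bad : Set (XX d) := {p : XX d | p.2 z ≠ p.1 z} ∪ {p : XX d | p.2 w ≠ p.1 w} with hBad
  set ε : ℝ := Real.exp (-(((2 * d * M + 2) ^ 2 + 3) / σ ^ 2)) with hε
  have hPB : P.real Bad < 2 * ε := by
    have h1 : P.real Bad ≤ P.real {p : XX d | p.2 z ≠ p.1 z} + P.real {p : XX d | p.2 w ≠ p.1 w} :=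
      measureReal_union_le _ _
    have h2 := hcon z
    have h3 := hcon w
    linarith
  have hAB : P.real A ≤ P.real Bad := by
    have h1 : A ≤ᵐ[P] Bad := by
      filter_upwards [hae] with p hp hpA
      obtain ⟨E, ψ, hψ, hE⟩ := hp
      by_contra hb'
      have hsame : p.2 z = p.1 z ∧ p.2 w = p.1 w := by
        by_contra hne
        rw [not_and_or] at hne
        exact hb' hne
      have hvz : t ≤ p.1 z := by
        have := hpA z (by simp [hB])
        rw [es1] at this
        exact this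
      have hvw : p.1 w ≤ -t := by
        have := hpA w (by simp [hB])
        rw [es2] at this
        exact this
      -- the equation gives 0 ≤ E - σ V' ≤ 2 d M
      have hrange : ∀ x, 0 ≤ E - σ * p.2 x ∧ E - σ * p.2 x ≤ 2 * d * M := by
        intro x
        have h2 := hE x
        unfold Adj at h2
        have h3 : 0 ≤ ∑ i : Fin d, (ψ (x + Pi.single i 1) + ψ (x - Pi.single i 1)) :=
          Finset.sum_nonneg fun i _ => by
            have := (hψ (x + Pi.single i 1)).1
            have := (hψ (x - Pi.single i 1)).1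
            linarith
        have h4 : ∑ i : Fin d, (ψ (x + Pi.single i 1) + ψ (x - Pi.single i 1)) ≤ 2 * d * M := by
          refine (Finset.sum_le_sum fun i _ => add_le_add (hψ (x + Pi.single i 1)).2
            (hψ (x - Pi.single i 1)).2).trans (le_of_eq ?_)
          rw [Finset.sum_const, Finset.card_univ, Fintype.card_fin, nsmul_eq_mul]
          ring
        have h5 := (hψ x).1
        have h6 : (E - σ * p.2 x) * ψ x =
            ∑ i : Fin d, (ψ (x + Pi.single i 1) + ψ (x - Pi.single i 1)) := by linarith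
        constructor
        · by_contra hneg
          push Not at hneg
          have : (E - σ * p.2 x) * ψ x < 0 := mul_neg_of_neg_of_pos hneg (by linarith)
          linarith
        · by_contra hbig
          push Not at hbig
          have h7 : (0 : ℝ) < 2 * d * M := by positivity
          have : 2 * d * M * 1 < (E - σ * p.2 x) * ψ x :=
            mul_lt_mul hbig h5 one_pos (by linarith)
          linarith
      have h8 := (hrange z).1
      have h9 := (hrange w).2
      rw [hsame.1] at h8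
      rw [hsame.2] at h9
      have h10 : σ * t = 2 * d * M + 1 := by rw [ht]; field_simp
      have h11 : σ * t ≤ σ * p.1 z := mul_le_mul_of_nonneg_left hvz hσ.le
      have h12 : σ * p.1 w ≤ σ * (-t) := mul_le_mul_of_nonneg_left hvw hσ.le
      have h13 : (0 : ℝ) < 2 * d * M := by positivity
      linarith
    rw [Measure.real, Measure.real]
    exact ENNReal.toReal_mono (measure_ne_top _ _) (measure_mono_ae h1)
  -- numbers
  have hfin : 2 * ε ≤
      (1 / 3 * Real.exp (-((t + 1) ^ 2 / 2))) * (1 / 3 * Real.exp (-((t + 1) ^ 2 / 2))) := by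
    have e1 : (1 / 3 * Real.exp (-((t + 1) ^ 2 / 2))) * (1 / 3 * Real.exp (-((t + 1) ^ 2 / 2))) =
        1 / 9 * Real.exp (-(t + 1) ^ 2) := by
      have : Real.exp (-(t + 1) ^ 2) = Real.exp (-((t + 1) ^ 2 / 2)) *
          Real.exp (-((t + 1) ^ 2 / 2)) := by rw [← Real.exp_add]; congr 1; ring
      rw [this]; ring
    have h1 : t + 1 ≤ (2 * d * M + 2) / σ := by
      rw [ht, le_div_iff₀ hσ, add_mul, div_mul_cancel₀ _ hσ.ne', one_mul]
      linarith
    have h2 : (t + 1) ^ 2 ≤ (2 * d * M + 2) ^ 2 / σ ^ 2 := by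
      rw [← div_pow]
      exact pow_le_pow_left₀ (by linarith) h1 2
    have h3 : (18 : ℝ) ≤ Real.exp (3 / σ ^ 2) := by
      have h4 : (18 : ℝ) ≤ Real.exp 3 := by
        have h5 := Real.exp_one_gt_d9
        have h6 : Real.exp 3 = Real.exp 1 ^ 3 := by rw [← Real.exp_nat_mul]; norm_num
        rw [h6]
        have h7 : (2.7 : ℝ) ^ 3 ≤ Real.exp 1 ^ 3 := pow_le_pow_left₀ (by norm_num) (by linarith) 3
        have h8 : (18 : ℝ) ≤ 2.7 ^ 3 := by norm_num
        linarith
      refine h4.trans (Real.exp_le_exp.2 ?_)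
      rw [le_div_iff₀ (by positivity)]
      nlinarith
    rw [e1, hε]
    have e2 : Real.exp (-(((2 * d * M + 2) ^ 2 + 3) / σ ^ 2)) * Real.exp (3 / σ ^ 2) =
        Real.exp (-((2 * d * M + 2) ^ 2 / σ ^ 2)) := by
      rw [← Real.exp_add]; congr 1; ring
    have h5 : Real.exp (-((2 * d * M + 2) ^ 2 / σ ^ 2)) ≤ Real.exp (-(t + 1) ^ 2) :=
      Real.exp_le_exp.2 (by linarith)
    have h6 : Real.exp (-(((2 * d * M + 2) ^ 2 + 3) / σ ^ 2)) * 18 ≤
        Real.exp (-((2 * d * M + 2) ^ 2 / σ ^ 2)) := by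
      rw [← e2]
      exact mul_le_mul_of_nonneg_left h3 (Real.exp_pos _).le
    linarith
  linarith

end Pool.Agent.U874.And
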