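import Pool.Agent.H541R3.AND.Heat
import Pool.Agent.U874.And.Cpt

/-! # Decay of the heat kernel of a flat ground state on the lattice, from the torus -/

set_option autoImplicit false

open Filter Topology

namespace Pool.Agent.U874.And

open Pool.Agent.H4R2.AE

/-- weighted Laplacian on the lattice -/
noncomputable def LapZ {d : ℕ} (u g : Z d → ℝ) (x : Z d) : ℝ :=
  ∑ i : Fin d, (u x * u (x + Pi.single i 1) * (g x - g (x + Pi.single i 1)) +
    u x * u (x - Pi.single i 1) * (g x - g (x - Pi.single i 1)))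

/-- one step on the lattice -/
noncomputable def Pz {d : ℕ} (b κ : ℝ) (u g : Z d → ℝ) (x : Z d) : ℝ :=
  g x - 1 / b * (LapZ u g x / u x ^ 2 + κ * g x)

/-- the centred lift of the torus -/
def lift {d L : ℕ} (x : Z d) (t : T d L) : Z d := fun i => x i + (t i).valMinAbs

lemma vma_add {L : ℕ} [NeZero L] (a : ZMod L) (m : ℕ) (h : a.valMinAbs.natAbs ≤ m)
    (hL : 2 * (m + 1) < L) : (a + 1).valMinAbs = a.valMinAbs + 1 := by
  rw [ZMod.valMinAbs_spec]
  refine ⟨by push_cast; simp, ?_⟩
  rw [Set.mem_Ioc]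
  omega

lemma vma_sub {L : ℕ} [NeZero L] (a : ZMod L) (m : ℕ) (h : a.valMinAbs.natAbs ≤ m)
    (hL : 2 * (m + 1) < L) : (a - 1).valMinAbs = a.valMinAbs - 1 := by
  rw [ZMod.valMinAbs_spec]
  refine ⟨by push_cast; simp, ?_⟩
  rw [Set.mem_Ioc]
  omega

/-- far points stay far -/
lemma vma_far_add {L : ℕ} [NeZero L] (a : ZMod L) (m : ℕ) (h : m + 1 ≤ a.valMinAbs.natAbs)
    (hL : 2 * (m + 2) < L) : m ≤ (a + 1).valMinAbs.natAbs := by
  by_contra hc
  push Not at hc
  have h1 := vma_sub (a + 1) m hc.le (by omega)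
  rw [add_sub_cancel_right] at h1
  omega

lemma vma_far_sub {L : ℕ} [NeZero L] (a : ZMod L) (m : ℕ) (h : m + 1 ≤ a.valMinAbs.natAbs)
    (hL : 2 * (m + 2) < L) : m ≤ (a - 1).valMinAbs.natAbs := by
  by_contra hc
  push Not at hc
  have h1 := vma_add (a - 1) m hc.le (by omega)
  rw [sub_add_cancel] at h1
  omega

/-- `g` vanishes outside the cube of radius `n` around `x` -/
def Supp {d : ℕ} (x : Z d) (n : ℕ) (g : Z d → ℝ) : Prop :=
  ∀ y, (∃ j, n < (y j - x j).natAbs) → g y = 0

lemma Supp.step {d : ℕ} {x : Z d} {n : ℕ} {g : Z d → ℝ} (h : Supp x n g) (b κ : ℝ) (u : Z d → ℝ) :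
    Supp x (n + 1) (Pz b κ u g) := by
  rintro y ⟨j, hj⟩
  have h0 : g y = 0 := h y ⟨j, by omega⟩
  have h1 : ∀ i : Fin d, g (y + Pi.single i 1) = 0 := by
    intro i
    apply h
    refine ⟨j, ?_⟩
    rw [Pi.add_apply]
    by_cases hij : j = i
    · subst hij; rw [Pi.single_eq_same]; omega
    · rw [Pi.single_eq_of_ne hij, add_zero]; omega
  have h2 : ∀ i : Fin d, g (y - Pi.single i 1) = 0 := by
    intro i
    apply h
    refine ⟨j, ?_⟩
    rw [Pi.sub_apply]
    by_cases hij : j = i
    · subst hij; rw [Pi.single_eq_same]; omega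
    · rw [Pi.single_eq_of_ne hij, sub_zero]; omega
  unfold Pz LapZ
  simp [h0, h1, h2]

lemma lift_add {d L : ℕ} [NeZero L] (x : Z d) (t : T d L) (i : Fin d) (m : ℕ)
    (h : (t i).valMinAbs.natAbs ≤ m) (hL : 2 * (m + 1) < L) :
    lift x (t + Pi.single i 1) = lift x t + Pi.single i 1 := by
  funext j
  unfold lift
  rw [Pi.add_apply, Pi.add_apply]
  by_cases hij : j = i
  · subst hij
    rw [Pi.single_eq_same, Pi.single_eq_same, vma_add _ m h hL]; ring
  · rw [Pi.single_eq_of_ne hij, Pi.single_eq_of_ne hij, add_zero, add_zero]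

lemma lift_sub {d L : ℕ} [NeZero L] (x : Z d) (t : T d L) (i : Fin d) (m : ℕ)
    (h : (t i).valMinAbs.natAbs ≤ m) (hL : 2 * (m + 1) < L) :
    lift x (t - Pi.single i 1) = lift x t - Pi.single i 1 := by
  funext j
  unfold lift
  rw [Pi.sub_apply, Pi.sub_apply]
  by_cases hij : j = i
  · subst hij
    rw [Pi.single_eq_same, Pi.single_eq_same, vma_sub _ m h hL]; ring
  · rw [Pi.single_eq_of_ne hij, Pi.single_eq_of_ne hij, sub_zero, sub_zero]

/-- one step commutes with the lift -/
lemma lift_step {d L : ℕ} [NeZero L] (x : Z d) (n : ℕ) (u g : Z d → ℝ) (hg : Supp x n g) (b : ℝ)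
    (hL : 2 * (n + 3) < L) (t : T d L) :
    Pool.Agent.H541R3.AND.Nash.Pg b (fun s => u (lift x s)) (fun s => g (lift x s)) t =
      Pz b (1 / (L : ℝ) ^ 2) u g (lift x t) := by
  unfold Pool.Agent.H541R3.AND.Nash.Pg Pool.Agent.H541R3.AND.Nash.Ag Pz
  have key : LapW (fun s => u (lift x s)) (fun s => g (lift x s)) t = LapZ u g (lift x t) := by
    unfold LapW LapZ
    refine Finset.sum_congr rfl fun i _ => ?_
    beta_reduce
    by_cases hc : ∀ j, (t j).valMinAbs.natAbs ≤ n + 1
    · rw [lift_add x t i (n + 1) (hc i) (by omega), lift_sub x t i (n + 1) (hc i) (by omega)]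
    · push Not at hc
      obtain ⟨j, hj⟩ := hc
      have h0 : g (lift x t) = 0 := hg _ ⟨j, by unfold lift; omega⟩
      have h1 : g (lift x t + Pi.single i 1) = 0 := by
        apply hg
        refine ⟨j, ?_⟩
        rw [Pi.add_apply]
        unfold lift
        by_cases hij : j = i
        · subst hij; rw [Pi.single_eq_same]; omega
        · rw [Pi.single_eq_of_ne hij, add_zero]; omega
      have h2 : g (lift x t - Pi.single i 1) = 0 := by
        apply hg
        refine ⟨j, ?_⟩
        rw [Pi.sub_apply]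
        unfold lift
        by_cases hij : j = i
        · subst hij; rw [Pi.single_eq_same]; omega
        · rw [Pi.single_eq_of_ne hij, sub_zero]; omega
      have h3 : g (lift x (t + Pi.single i 1)) = 0 := by
        apply hg
        refine ⟨j, ?_⟩
        unfold lift
        rw [Pi.add_apply]
        by_cases hij : j = i
        · subst hij
          rw [Pi.single_eq_same]
          have := vma_far_add (t j) (n + 1) (by omega) (by omega)
          omega
        · rw [Pi.single_eq_of_ne hij, add_zero]; omega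
      have h4 : g (lift x (t - Pi.single i 1)) = 0 := by
        apply hg
        refine ⟨j, ?_⟩
        unfold lift
        rw [Pi.sub_apply]
        by_cases hij : j = i
        · subst hij
          rw [Pi.single_eq_same]
          have := vma_far_sub (t j) (n + 1) (by omega) (by omega)
          omega
        · rw [Pi.single_eq_of_ne hij, sub_zero]; omega
      rw [h0, h1, h2, h3, h4]
      ring
  rw [key]

lemma lift_inj {d L : ℕ} (x : Z d) : Function.Injective (lift (L := L) x) := by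
  intro s t h
  funext i
  have h1 := congrFun h i
  unfold lift at h1
  exact ZMod.injective_valMinAbs (by linarith)

lemma lift_tsum {d L : ℕ} [NeZero L] (x : Z d) (n : ℕ) (F : Z d → ℝ) (hF : Supp x n F)
    (hL : 2 * (n + 3) < L) : ∑' y, F y = ∑ t : T d L, F (lift x t) := by
  classical
  rw [tsum_eq_sum (s := Finset.univ.image (lift (L := L) x)),
    Finset.sum_image fun s _ t _ h => lift_inj x h]
  intro y hy
  by_contra hne
  apply hy
  have hall : ∀ j, (y j - x j).natAbs ≤ n := by
    intro j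
    by_contra hc
    push Not at hc
    exact hne (hF y ⟨j, hc⟩)
  rw [Finset.mem_image]
  refine ⟨fun i => ((y i - x i : ℤ) : ZMod L), Finset.mem_univ _, ?_⟩
  funext i
  unfold lift
  have : (((y i - x i : ℤ) : ZMod L)).valMinAbs = y i - x i := by
    rw [ZMod.valMinAbs_spec]
    refine ⟨rfl, ?_⟩
    rw [Set.mem_Ioc]
    have := hall i
    omega
  rw [this]; ring

/-- the iterates -/
noncomputable def gz {d : ℕ} (b κ : ℝ) (u : Z d → ℝ) (x : Z d) (n : ℕ) : Z d → ℝ :=
  (Pz b κ u)^[n] (Pi.single x (u x)⁻¹)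

lemma gz_succ {d : ℕ} (b κ : ℝ) (u : Z d → ℝ) (x : Z d) (n : ℕ) :
    gz b κ u x (n + 1) = Pz b κ u (gz b κ u x n) := by
  unfold gz
  rw [Function.iterate_succ_apply']

lemma gz_supp {d : ℕ} (b κ : ℝ) (u : Z d → ℝ) (x : Z d) (n : ℕ) : Supp x n (gz b κ u x n) := by
  induction n with
  | zero =>
    rintro y ⟨j, hj⟩
    unfold gz
    simp only [Function.iterate_zero, id_eq]
    rw [Pi.single_eq_of_ne]
    rintro rfl
    simp at hj
  | succ n ih => rw [gz_succ]; exact ih.step b κ u

theorem walk (d : ℕ) (hd : 3 ≤ d) (b : ℝ) (hb : 2 * (4 * (d : ℝ) + 1) ≤ b) : ∃ C : ℝ, 0 < C ∧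
    ∀ (u : Z d → ℝ) (x : Z d) (n L : ℕ), (∀ y, 1 ≤ u y) → (∀ y, u y ≤ 2) → 2 * (n + 3) < L →
      (∑' y, u y ^ 2 * gz b (1 / (L : ℝ) ^ 2) u x n y ^ 2) * (n : ℝ) ^ ((d : ℝ) / 2) ≤ C := by
  obtain ⟨C, hC, h⟩ := Pool.Agent.H541R3.AND.Heat.decay d hd b hb
  refine ⟨C, hC, ?_⟩
  intro u x n L h1 h2 hL
  have : NeZero L := ⟨by omega⟩
  have hx : 0 < u x := by have := h1 x; linarith
  set G0 : T d L → ℝ := fun t => (Pi.single x (u x)⁻¹ : Z d → ℝ) (lift x t) with hG0
  have hl0 : lift x (0 : T d L) = x := by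
    funext i; unfold lift; simp
  have hG0z : ∀ t : T d L, t ≠ 0 → G0 t = 0 := by
    intro t ht
    simp only [hG0]
    rw [Pi.single_eq_of_ne]
    intro h
    exact ht (lift_inj x (h.trans hl0.symm))
  have h3 := h L (fun t => u (lift x t)) G0 (fun t => h1 _) (fun t => h2 _) (by
    rw [Finset.sum_eq_single (0 : T d L)]
    · rw [hl0]
      have : G0 0 = (u x)⁻¹ := by
        simp only [hG0]
        rw [hl0, Pi.single_eq_same]
      rw [this, abs_of_pos (inv_pos.2 hx)]
      have e : u x ^ 2 * (u x)⁻¹ = u x := by field_simp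
      rw [e]
      exact h2 x
    · intro t _ ht
      rw [hG0z t ht]; simp
    · intro hn
      exact absurd (Finset.mem_univ _) hn) n
  have hit : ∀ m, m ≤ n → (Pool.Agent.H541R3.AND.Nash.Pg b (fun t => u (lift x t)))^[m] G0 =
      fun t => gz b (1 / (L : ℝ) ^ 2) u x m (lift x t) := by
    intro m
    induction m with
    | zero => intro _; rfl
    | succ m ih =>
      intro hm
      rw [Function.iterate_succ_apply', ih (by omega), gz_succ]
      funext t
      exact lift_step x m u _ (gz_supp b _ u x m) b (by omega) t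
  rw [hit n le_rfl] at h3
  have h4 := lift_tsum (L := L) x n (fun y => u y ^ 2 * gz b (1 / (L : ℝ) ^ 2) u x n y ^ 2)
    (fun y hy => by
      beta_reduce
      rw [gz_supp b _ u x n y hy]; ring) hL
  rw [h4]
  exact h3

end Pool.Agent.U874.And
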